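import Pool.Agent.helper213_IG.Words
import Pool.Agent.helper213_IG.Pn

/-!
# Colourings of the stack graph of a word of partitions

Row `k` of the word `w` is the row of `n` points between the letters `k - 1` and `k`. A colouring
gives every row a vector over the field with two elements which is constant on the connected
components of the graph of `w`; two points are connected if all colourings agree on them.
-/

set_option autoImplicit false

namespace Pool.Agent.K9h89.IGN

open Pool.Agent.H213 RkMonoid Relation PM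

variable {n : ℕ}

abbrev Lt (n : ℕ) : Type := Idem (PM n)

/-- colourings of a word -/
def Col (w : List (Lt n)) (χ : ℕ → Vec n) : Prop :=
  ∀ (k : ℕ) (h : k < w.length), (χ k, χ (k + 1)) ∈ ((w[k] : Lt n) : PM n).C

theorem col_nil (χ : ℕ → Vec n) : Col ([] : List (Lt n)) χ := by
  intro k h; simp at h

theorem col_cons {a : Lt n} {w : List (Lt n)} {χ : ℕ → Vec n} :
    Col (a :: w) χ ↔ (χ 0, χ 1) ∈ (a : PM n).C ∧ Col w (fun k => χ (k + 1)) := by
  constructor
  · intro h
    refine ⟨h 0 (by simp), ?_⟩
    intro k hk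
    exact h (k + 1) (by simpa using hk)
  · rintro ⟨h1, h2⟩ k hk
    cases k with
    | zero => exact h1
    | succ k => exact h2 k (by simpa using hk)

theorem col_append {u v : List (Lt n)} {χ : ℕ → Vec n} :
    Col (u ++ v) χ ↔ Col u χ ∧ Col v (fun k => χ (u.length + k)) := by
  induction u generalizing χ with
  | nil => simp [col_nil]
  | cons a u ih =>
    rw [List.cons_append, col_cons, col_cons, ih, and_assoc]
    have : (fun k => χ ((a :: u).length + k)) = (fun k => χ (u.length + k + 1)) := by
      funext k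
      congr 1
      simp only [List.length_cons]
      omega
    rw [this]

theorem col_congr {w : List (Lt n)} {χ χ' : ℕ → Vec n} (h : ∀ k ≤ w.length, χ k = χ' k)
    (hc : Col w χ) : Col w χ' := by
  intro k hk
  rw [← h k hk.le, ← h (k + 1) hk]
  exact hc k hk

theorem col_vl {w : List (Lt n)} : ∀ {χ : ℕ → Vec n}, Col w χ → (χ 0, χ w.length) ∈ (vl w).C := by
  induction w with
  | nil => intro χ _; exact mem_C_one.2 rfl
  | cons a w ih =>
    intro χ h
    rw [col_cons] at h
    rw [vl_cons, mem_C_mul]
    exact ⟨χ 1, h.1, ih h.2⟩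

theorem exists_col {w : List (Lt n)} : ∀ {f g : Vec n}, (f, g) ∈ (vl w).C →
    ∃ χ : ℕ → Vec n, Col w χ ∧ χ 0 = f ∧ χ w.length = g := by
  induction w with
  | nil =>
    intro f g h
    exact ⟨fun _ => f, col_nil _, rfl, mem_C_one.1 h⟩
  | cons a w ih =>
    intro f g h
    rw [vl_cons, mem_C_mul] at h
    obtain ⟨k, h1, h2⟩ := h
    obtain ⟨χ, h3, h4, h5⟩ := ih h2
    refine ⟨fun i => Nat.casesOn i f χ, ?_, rfl, h5⟩
    rw [col_cons]
    refine ⟨?_, h3⟩
    show (f, χ 0) ∈ _
    rw [h4]; exact h1

/-- two points have the same colour in all colourings -/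
def Conn (w : List (Lt n)) (x y : ℕ × Fin n) : Prop := ∀ χ, Col w χ → χ x.1 x.2 = χ y.1 y.2

theorem Conn.refl (w : List (Lt n)) (x : ℕ × Fin n) : Conn w x x := fun _ _ => rfl

theorem Conn.symm {w : List (Lt n)} {x y : ℕ × Fin n} (h : Conn w x y) : Conn w y x :=
  fun χ hχ => (h χ hχ).symm

theorem Conn.trans {w : List (Lt n)} {x y z : ℕ × Fin n} (h : Conn w x y) (h' : Conn w y z) :
    Conn w x z := fun χ hχ => (h χ hχ).trans (h' χ hχ)

/-- replacing a factor by a factor of the same value -/
theorem surgery {X l r Y : List (Lt n)} (h : vl l = vl r) {χ : ℕ → Vec n}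
    (hχ : Col (X ++ l ++ Y) χ) : ∃ χ' : ℕ → Vec n, Col (X ++ r ++ Y) χ' ∧
      (∀ i ≤ X.length, χ' i = χ i) ∧
      (∀ j, χ' (X.length + r.length + j) = χ (X.length + l.length + j)) := by
  rw [col_append, col_append, List.length_append] at hχ
  obtain ⟨⟨h1, h2⟩, h3⟩ := hχ
  have h4 := col_vl h2
  rw [h] at h4
  obtain ⟨ρ, h5, h6, h7⟩ := exists_col h4
  simp only [add_zero] at h6
  have key : ∀ j, (if X.length + r.length + j ≤ X.length then χ (X.length + r.length + j)
      else if X.length + r.length + j ≤ X.length + r.length then ρ (X.length + r.length + j - X.length)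
      else χ (X.length + r.length + j - r.length + l.length)) = χ (X.length + l.length + j) := by
    intro j
    split_ifs with h8 h9
    · have hr : r.length = 0 := by omega
      have hj : j = 0 := by omega
      subst hj
      simp only [hr, add_zero] at h7 ⊢
      rw [← h7, h6]
    · have hj : j = 0 := by omega
      subst hj
      simp only [add_zero, Nat.add_sub_cancel_left]
      exact h7
    · congr 1
      omega
  refine ⟨fun k => if k ≤ X.length then χ k else if k ≤ X.length + r.length then ρ (k - X.length)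
    else χ (k - r.length + l.length), ?_, ?_, key⟩
  · rw [col_append, col_append, List.length_append]
    refine ⟨⟨?_, ?_⟩, ?_⟩
    · apply col_congr _ h1
      intro k hk
      simp only [hk, if_true]
    · apply col_congr _ h5
      intro k hk
      split_ifs with h8 h9
      · have : k = 0 := by omega
        subst this
        rw [h6, add_zero]
      · congr 1; omega
      · exfalso; omega
    · apply col_congr _ h3
      intro k hk
      exact (key k).symm
  · intro i hi
    simp only [hi, if_true]

open Classical in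
/-- indicator of a component -/
noncomputable def ind (w : List (Lt n)) (x : ℕ × Fin n) : ℕ → Vec n :=
  fun k q => if Conn w x (k, q) then 1 else 0

theorem ind_self (w : List (Lt n)) (x : ℕ × Fin n) : ind w x x.1 x.2 = 1 := by
  unfold ind
  rw [if_pos (Conn.refl w x)]

theorem ind_of_conn {w : List (Lt n)} {x : ℕ × Fin n} {k : ℕ} {q : Fin n} (h : Conn w x (k, q)) :
    ind w x k q = 1 := by
  unfold ind
  rw [if_pos h]

theorem ind_col (w : List (Lt n)) (x : ℕ × Fin n) : Col w (ind w x) := by
  intro k hk p q hpq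
  have key : ∀ χ : ℕ → Vec n, ∀ c : Bool × Fin n,
      ev (χ k) (χ (k + 1)) c = χ (if c.1 = true then k + 1 else k) c.2 := by
    rintro χ ⟨b, i⟩
    cases b <;> simp
  rw [key, key]
  have h1 : ∀ χ, Col w χ → χ (if p.1 = true then k + 1 else k) p.2 =
      χ (if q.1 = true then k + 1 else k) q.2 := by
    intro χ hχ
    exact (key χ p).symm.trans ((hχ k hk p q hpq).trans (key χ q))
  have h2 : Conn w x ((if p.1 = true then k + 1 else k), p.2) ↔
      Conn w x ((if q.1 = true then k + 1 else k), q.2) :=
    ⟨fun h χ hχ => (h χ hχ).trans (h1 χ hχ), fun h χ hχ => (h χ hχ).trans (h1 χ hχ).symm⟩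
  unfold ind
  by_cases h3 : Conn w x ((if p.1 = true then k + 1 else k), p.2)
  · rw [if_pos h3, if_pos (h2.1 h3)]
  · rw [if_neg h3, if_neg (fun h4 => h3 (h2.2 h4))]

/-- the component of `x` meets row `k` -/
def Tch (w : List (Lt n)) (x : ℕ × Fin n) (k : ℕ) : Prop := ∃ q, Conn w x (k, q)

theorem ind_zero {w : List (Lt n)} {x : ℕ × Fin n} {k : ℕ} (h : ¬ Tch w x k) : ind w x k = 0 := by
  funext q
  unfold ind
  rw [if_neg (fun h' => h ⟨q, h'⟩)]
  rfl

theorem Tch.of_conn {w : List (Lt n)} {x y : ℕ × Fin n} {k : ℕ} (h : Conn w x y) (h' : Tch w y k) :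
    Tch w x k := by
  obtain ⟨q, hq⟩ := h'
  exact ⟨q, h.trans hq⟩

/-- components meet intervals of rows -/
theorem tch_between {w : List (Lt n)} {x : ℕ × Fin n} {i j k : ℕ} (hi : Tch w x i) (hj : Tch w x j)
    (h1 : i ≤ k) (h2 : k ≤ j) : Tch w x k := by
  by_contra h
  have h0 := ind_zero h
  obtain ⟨p, hp⟩ := hi
  obtain ⟨q, hq⟩ := hj
  have hik : i ≠ k := by rintro rfl; exact h ⟨p, hp⟩
  have hjk : j ≠ k := by rintro rfl; exact h ⟨q, hq⟩
  have hc : Col w (fun m => if m ≤ k then ind w x m else 0) := by
    intro m hm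
    have h3 := ind_col w x m hm
    simp only
    split_ifs with h4 h5 h6
    · exact h3
    · have : m = k := by omega
      subst this
      rw [h0]
      exact Submodule.zero_mem _
    · exfalso; omega
    · exact Submodule.zero_mem _
  have h3 := hp _ hc
  have h4 := hq _ hc
  rw [h3] at h4
  simp only [if_pos h1, if_neg (by omega : ¬ j ≤ k), ind_of_conn hp] at h4
  exact one_ne_zero h4

/-- extension to the left -/
theorem tch_left {w : List (Lt n)} {x : ℕ × Fin n} {k : ℕ} (hk : k + 1 < w.length)
    (hr : rk (((w[k] : Lt n) : PM n) * ((w[k + 1] : Lt n) : PM n)) = rk ((w[k + 1] : Lt n) : PM n))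
    (h1 : Tch w x (k + 1)) (h2 : Tch w x (k + 2)) : Tch w x k := by
  by_contra h
  have h0 := ind_zero h
  obtain ⟨p, hp⟩ := h1
  obtain ⟨q, hq⟩ := h2
  have hcok := ((rank_mul_eq_right_iff _ _).1 hr).2
  have ha := ind_col w x k (by omega)
  have hb := ind_col w x (k + 1) hk
  rw [h0] at ha
  have hab : ind w x (k + 2) ∈ (((w[k] : Lt n) : PM n) * ((w[k + 1] : Lt n) : PM n)).cok :=
    mem_cok.2 (mem_C_mul.2 ⟨_, ha, hb⟩)
  rw [hcok, mem_cok] at hab
  have hc : Col w (fun m => if m ≤ k + 1 then 0 else ind w x m) := by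
    intro m hm
    have h3 := ind_col w x m hm
    simp only
    split_ifs with h4 h5 h6
    · exact Submodule.zero_mem _
    · have : m = k + 1 := by omega
      subst this
      exact hab
    · exfalso; omega
    · exact h3
  have h3 := hp _ hc
  have h4 := hq _ hc
  rw [h3] at h4
  simp only [if_pos le_rfl, if_neg (by omega : ¬ k + 2 ≤ k + 1), ind_of_conn hq] at h4
  exact zero_ne_one h4

/-- extension to the right -/
theorem tch_right {w : List (Lt n)} {x : ℕ × Fin n} {k : ℕ} (hk : k + 1 < w.length)
    (hr : rk (((w[k] : Lt n) : PM n) * ((w[k + 1] : Lt n) : PM n)) = rk ((w[k] : Lt n) : PM n))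
    (h1 : Tch w x (k + 1)) (h2 : Tch w x k) : Tch w x (k + 2) := by
  by_contra h
  have h0 := ind_zero h
  obtain ⟨p, hp⟩ := h1
  obtain ⟨q, hq⟩ := h2
  have hker := ((rank_mul_eq_left_iff _ _).1 hr).2
  have ha := ind_col w x k (by omega)
  have hb := ind_col w x (k + 1) hk
  rw [show k + 1 + 1 = k + 2 from rfl, h0] at hb
  have hab : ind w x k ∈ (((w[k] : Lt n) : PM n) * ((w[k + 1] : Lt n) : PM n)).ker :=
    mem_ker.2 (mem_C_mul.2 ⟨_, ha, hb⟩)
  rw [hker, mem_ker] at hab
  have hc : Col w (fun m => if m ≤ k then ind w x m else 0) := by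
    intro m hm
    have h3 := ind_col w x m hm
    simp only
    split_ifs with h4 h5 h6
    · exact h3
    · have : m = k := by omega
      subst this
      exact hab
    · exfalso; omega
    · exact Submodule.zero_mem _
  have h3 := hp _ hc
  have h4 := hq _ hc
  rw [h3] at h4
  simp only [if_pos le_rfl, if_neg (by omega : ¬ k + 1 ≤ k), ind_of_conn hq] at h4
  exact zero_ne_one h4

end Pool.Agent.K9h89.IGN
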