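import Pool.Agent.K9h89.IGN.Long
import Pool.Agent.helper213_IG.Pairs

/-!
# The explicit words

Points `0, ..., 4`. `x₁` has the blocks `2 - 2'`, `3 - 3'`; `x` has the blocks `0 - 0'`, `1 - 1'`,
`2 - 3'`; `b` exchanges `0` and `1` with the help of the free point `4`.
-/

set_option autoImplicit false

namespace Pool.Agent.K9h89.IGN

open Pool.Agent.H213 RkMonoid Relation PM Module

variable {n : ℕ}

/-- the points -/
def P (hn : 5 ≤ n) (i : Fin 5) : Fin n := Fin.castLE hn i

@[simp] theorem P_inj (hn : 5 ≤ n) (i j : Fin 5) : P hn i = P hn j ↔ i = j :=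
  (Fin.castLE_injective hn).eq_iff

variable (hn : 5 ≤ n)

def wa : List (Lt n) := [ei {P hn 2, P hn 3}]
def wx : List (Lt n) := [ei {P hn 0, P hn 1, P hn 2}, ti (P hn 2) (P hn 3), ei {P hn 0, P hn 1, P hn 3}]
def wb : List (Lt n) := [si (P hn 4), ti (P hn 4) (P hn 0), bi (P hn 0) (P hn 4),
  ti (P hn 0) (P hn 1), bi (P hn 1) (P hn 0), ti (P hn 1) (P hn 4), bi (P hn 4) (P hn 1)]

theorem C_a {f g : Vec n} : (f, g) ∈ (vl (wa hn)).C ↔
    f (P hn 2) = g (P hn 2) ∧ f (P hn 3) = g (P hn 3) := by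
  unfold wa
  simp [mem_C_Es]

theorem C_x {f g : Vec n} : (f, g) ∈ (vl (wx hn)).C ↔
    f (P hn 0) = g (P hn 0) ∧ f (P hn 1) = g (P hn 1) ∧ f (P hn 2) = g (P hn 3) := by
  unfold wx
  simp only [vl_cons, vl_nil, mul_one, coe_ei, coe_ti, mem_C_mul, mem_C_Es, mem_C_tt]
  constructor
  · rintro ⟨h, h1, h', ⟨rfl, h2⟩, h3⟩
    have a0 := h1 (P hn 0) (by simp)
    have a1 := h1 (P hn 1) (by simp)
    have a2 := h1 (P hn 2) (by simp)
    have b0 := h3 (P hn 0) (by simp)
    have b1 := h3 (P hn 1) (by simp)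
    have b3 := h3 (P hn 3) (by simp)
    exact ⟨a0.trans b0, a1.trans b1, a2.trans (h2.trans b3)⟩
  · rintro ⟨h0, h1, h2⟩
    refine ⟨fun k => if k = P hn 3 then f (P hn 2) else f k, ?_, _, ⟨rfl, ?_⟩, ?_⟩
    · intro k hk
      rcases hk with rfl | rfl | rfl <;> simp
    · simp
    · intro k hk
      rcases hk with rfl | rfl | rfl
      · simp [h0]
      · simp [h1]
      · simp [h2]

theorem C_b {f g : Vec n} : (f, g) ∈ (vl (wb hn)).C ↔
    g (P hn 0) = f (P hn 1) ∧ g (P hn 1) = f (P hn 0) ∧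
      ∀ k, k ≠ P hn 0 → k ≠ P hn 1 → k ≠ P hn 4 → g k = f k := by
  unfold wb
  simp only [vl_cons, vl_nil, mul_one, coe_si, coe_ti, coe_bi]
  simp only [mem_C_mul, mem_C_tt, mem_C_ss]
  constructor
  · rintro ⟨r0, h1, r1, ⟨rfl, h2⟩, r2, ⟨r3, ⟨rfl, h3⟩, h4⟩, r4, ⟨rfl, h5⟩, r5,
      ⟨r6, ⟨rfl, h6⟩, h7⟩, r7, ⟨rfl, h8⟩, r8, ⟨rfl, h9⟩, h10⟩
    have e1 := h1 (P hn 0) (by simp)
    have e2 := h1 (P hn 1) (by simp)
    have e3 := h4 (P hn 1) (by simp)
    have e4 := h4 (P hn 4) (by simp)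
    have e5 := h7 (P hn 0) (by simp)
    have e6 := h7 (P hn 4) (by simp)
    have e7 := h10 (P hn 0) (by simp)
    have e8 := h10 (P hn 1) (by simp)
    refine ⟨?_, ?_, ?_⟩
    · rw [← e7, ← e5, h5, ← e3, ← e2]
    · rw [← e8, h8, ← e6, ← e4, h2, ← e1]
    · intro k k0 k1 k4
      rw [← h10 k k4, ← h7 k k1, ← h4 k k0, ← h1 k k4]
  · rintro ⟨h0, h1, h2⟩
    refine ⟨fun k => if k = P hn 4 then f (P hn 0) else f k, ?_, _, ⟨rfl, ?_⟩,
      fun k => if k = P hn 4 then f (P hn 0) else if k = P hn 0 then f (P hn 1) else f k,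
      ⟨_, ⟨rfl, ?_⟩, ?_⟩, _, ⟨rfl, ?_⟩,
      fun k => if k = P hn 4 then f (P hn 0) else if k = P hn 0 then f (P hn 1) else
        if k = P hn 1 then f (P hn 0) else f k, ⟨_, ⟨rfl, ?_⟩, ?_⟩, _, ⟨rfl, ?_⟩, _, ⟨rfl, ?_⟩, ?_⟩
    · intro k hk; simp [hk]
    · simp
    · simp
    · intro k hk; simp [hk]
    · simp
    · simp
    · intro k hk; simp [hk]
    · simp
    · simp
    · intro k hk
      by_cases k0 : k = P hn 0
      · subst k0; simp [h0]
      by_cases k1 : k = P hn 1
      · subst k1; simp [h1]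
      simp only [hk, k0, k1, if_false]
      exact (h2 k k0 k1 hk).symm

/-- exchange of two values -/
def swp (g : Vec n) : Vec n := fun k =>
  if k = P hn 0 then g (P hn 1) else if k = P hn 1 then g (P hn 0) else g k

theorem swp_0 (g : Vec n) : swp hn g (P hn 0) = g (P hn 1) := by simp [swp]
theorem swp_1 (g : Vec n) : swp hn g (P hn 1) = g (P hn 0) := by simp [swp]
theorem swp_k (g : Vec n) {k : Fin n} (h0 : k ≠ P hn 0) (h1 : k ≠ P hn 1) : swp hn g k = g k := by
  simp [swp, h0, h1]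

theorem C_b_swp (g : Vec n) : (g, swp hn g) ∈ (vl (wb hn)).C :=
  (C_b hn).2 ⟨swp_0 hn g, swp_1 hn g, fun k h0 h1 _ => swp_k hn g h0 h1⟩

theorem C_b_swp' (g : Vec n) : (swp hn g, g) ∈ (vl (wb hn)).C :=
  (C_b hn).2 ⟨(swp_1 hn g).symm, (swp_0 hn g).symm, fun k h0 h1 _ => (swp_k hn g h0 h1).symm⟩

theorem val_ab : vl (wa hn) * vl (wb hn) = vl (wa hn) := by
  apply ext_C
  intro f g
  rw [mem_C_mul]
  constructor
  · rintro ⟨h, h1, h2⟩
    rw [C_a] at h1 ⊢
    rw [C_b] at h2
    refine ⟨h1.1.trans (h2.2.2 _ (by simp) (by simp) (by simp)).symm,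
      h1.2.trans (h2.2.2 _ (by simp) (by simp) (by simp)).symm⟩
  · intro h
    refine ⟨swp hn g, ?_, C_b_swp' hn g⟩
    rw [C_a] at h ⊢
    rw [swp_k hn g (by simp) (by simp), swp_k hn g (by simp) (by simp)]
    exact h

theorem val_ba : vl (wb hn) * vl (wa hn) = vl (wa hn) := by
  apply ext_C
  intro f g
  rw [mem_C_mul]
  constructor
  · rintro ⟨h, h2, h1⟩
    rw [C_a] at h1 ⊢
    rw [C_b] at h2
    refine ⟨(h2.2.2 _ (by simp) (by simp) (by simp)).symm.trans h1.1,
      (h2.2.2 _ (by simp) (by simp) (by simp)).symm.trans h1.2⟩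
  · intro h
    refine ⟨swp hn f, C_b_swp hn f, ?_⟩
    rw [C_a] at h ⊢
    rw [swp_k hn f (by simp) (by simp), swp_k hn f (by simp) (by simp)]
    exact h

theorem val_bx : vl (wb hn) * vl (wx hn) = vl (wx hn) * vl (wb hn) := by
  apply ext_C
  intro f g
  rw [mem_C_mul, mem_C_mul]
  constructor
  · rintro ⟨h, h1, h2⟩
    rw [C_b] at h1
    rw [C_x] at h2
    refine ⟨swp hn g, ?_, C_b_swp' hn g⟩
    rw [C_x, swp_0, swp_1, swp_k hn g (by simp) (by simp)]
    refine ⟨h1.2.1.symm.trans h2.2.1, h1.1.symm.trans h2.1, ?_⟩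
    exact (h1.2.2 _ (by simp) (by simp) (by simp)).symm.trans h2.2.2
  · rintro ⟨h, h1, h2⟩
    rw [C_x] at h1
    rw [C_b] at h2
    refine ⟨swp hn f, C_b_swp hn f, ?_⟩
    rw [C_x, swp_0, swp_1, swp_k hn f (by simp) (by simp)]
    refine ⟨h1.2.1.trans h2.1.symm, h1.1.trans h2.2.1.symm, ?_⟩
    exact h1.2.2.trans (h2.2.2 _ (by simp) (by simp) (by simp)).symm

theorem val_bb {f g : Vec n} : (f, g) ∈ (vl (wb hn) * vl (wb hn)).C ↔
    ∀ k, k ≠ P hn 4 → f k = g k := by
  rw [mem_C_mul]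
  constructor
  · rintro ⟨h, h1, h2⟩ k hk
    rw [C_b] at h1 h2
    by_cases k0 : k = P hn 0
    · subst k0; exact h1.2.1.symm.trans h2.1.symm
    by_cases k1 : k = P hn 1
    · subst k1; exact h1.1.symm.trans h2.2.1.symm
    exact (h1.2.2 k k0 k1 hk).symm.trans (h2.2.2 k k0 k1 hk).symm
  · intro h
    refine ⟨swp hn g, ?_, C_b_swp' hn g⟩
    rw [C_b, swp_0, swp_1]
    refine ⟨(h _ (by simp)).symm, (h _ (by simp)).symm, ?_⟩
    intro k k0 k1 k4
    rw [swp_k hn g k0 k1]
    exact (h k k4).symm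

/-! ### ranks -/

theorem rk_Es_eq (A : Set (Fin n)) : rk (Es A) = Nat.card A := by
  classical
  have := Fintype.ofFinite A
  have h1 : (Es A).dom = ⊤ := by
    rw [eq_top_iff]
    intro f _
    exact mem_dom_Es f
  have h2 : (Es A).ker = LinearMap.ker (LinearMap.funLeft (ZMod 2) (ZMod 2) (Subtype.val : A → Fin n)) := by
    ext f
    rw [mem_ker_Es, LinearMap.mem_ker]
    constructor
    · intro h
      ext k
      exact h k k.2
    · intro h i hi
      exact congrFun h ⟨i, hi⟩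
  show (Es A).rank = _
  unfold rank
  rw [h1, h2]
  have h3 := LinearMap.finrank_range_add_finrank_ker
    (LinearMap.funLeft (ZMod 2) (ZMod 2) (Subtype.val : A → Fin n))
  rw [LinearMap.range_eq_top.2 (LinearMap.funLeft_surjective_of_injective _ _ _ Subtype.val_injective)] at h3
  rw [finrank_top] at h3 ⊢
  have h4 : finrank (ZMod 2) (A → ZMod 2) = Nat.card A := by
    rw [Module.finrank_fintype_fun_eq_card, Nat.card_eq_fintype_card]
  have h5 : finrank (ZMod 2) (A → ZMod 2) + finrank (ZMod 2) (LinearMap.ker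
    (LinearMap.funLeft (ZMod 2) (ZMod 2) (Subtype.val : A → Fin n))) = finrank (ZMod 2) (Vec n) := h3
  rw [h4] at h5
  exact Nat.sub_eq_of_eq_add h5.symm

theorem card_one (i : Fin 5) : Nat.card ({P hn i} : Set (Fin n)) = 1 := by
  simp

theorem card_two {i j : Fin 5} (h : i ≠ j) : Nat.card ({P hn i, P hn j} : Set (Fin n)) = 2 := by
  rw [Nat.card_coe_set_eq, Set.ncard_pair (by simpa using h)]

theorem card_three {i j k : Fin 5} (h1 : i ≠ j) (h2 : i ≠ k) (h3 : j ≠ k) :
    Nat.card ({P hn i, P hn j, P hn k} : Set (Fin n)) = 3 := by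
  rw [Nat.card_coe_set_eq, Set.ncard_eq_three.2 ⟨P hn i, P hn j, P hn k, by simpa using h1,
    by simpa using h2, by simpa using h3, rfl⟩]

theorem rk_a : rk (vl (wa hn)) = 2 := by
  have : vl (wa hn) = Es {P hn 2, P hn 3} := by simp [wa]
  rw [this, rk_Es_eq, card_two hn (by decide)]

theorem rk_x : rk (vl (wx hn)) = 3 := by
  have h1 : rk (Es {P hn 0, P hn 1, P hn 2}) = 3 := by
    rw [rk_Es_eq, card_three hn (by decide) (by decide) (by decide)]
  apply le_antisymm
  · rw [← h1]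
    unfold wx
    rw [vl_cons]
    exact rk_mul_le_left _ _
  · have h2 : vl (wx hn) * (vl (wx hn)).star = Es {P hn 0, P hn 1, P hn 2} := by
      apply ext_C
      intro f g
      rw [mem_C_mul, mem_C_Es]
      simp only [mem_C_star, C_x]
      constructor
      · rintro ⟨h, h1, h2⟩ k hk
        rcases hk with rfl | rfl | rfl
        · exact h1.1.trans h2.1.symm
        · exact h1.2.1.trans h2.2.1.symm
        · exact h1.2.2.trans h2.2.2.symm
      · intro h
        have a0 := h (P hn 0) (by simp)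
        have a1 := h (P hn 1) (by simp)
        have a2 := h (P hn 2) (by simp)
        refine ⟨fun k => if k = P hn 3 then g (P hn 2) else g k, ?_, ?_⟩
        · simp [a0, a1, a2]
        · simp
    rw [← h1, ← h2]
    exact rk_mul_le_left _ _

theorem rk_le_one {s : PM n} (h : ∀ f g : Vec n, (f, g) ∈ s.C ↔ f (P hn 2) = g (P hn 3)) :
    rk s ≤ 1 := by
  have h1 : s = Es {P hn 2} * s := by
    apply ext_C
    intro f g
    rw [mem_C_mul]
    simp only [mem_C_Es, h]
    constructor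
    · intro h2
      exact ⟨f, fun _ _ => rfl, h2⟩
    · rintro ⟨h', h2, h3⟩
      exact (h2 _ rfl).trans h3
  rw [h1]
  refine (rk_mul_le_left _ _).trans ?_
  rw [rk_Es_eq, card_one]

theorem nr_ax : NR (vl (wa hn)) (vl (wx hn)) := by
  have h : rk (vl (wa hn) * vl (wx hn)) ≤ 1 := by
    apply rk_le_one hn
    intro f g
    rw [mem_C_mul]
    simp only [C_a, C_x]
    constructor
    · rintro ⟨h, h1, h2⟩
      exact h1.1.trans h2.2.2
    · intro h
      refine ⟨fun k => if k = P hn 2 then f k else if k = P hn 3 then f k else g k, ?_, ?_⟩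
      · simp
      · simp [h]
  unfold NR
  rw [rk_a, rk_x]
  omega

theorem nr_xa : NR (vl (wx hn)) (vl (wa hn)) := by
  have h : rk (vl (wx hn) * vl (wa hn)) ≤ 1 := by
    apply rk_le_one hn
    intro f g
    rw [mem_C_mul]
    simp only [C_a, C_x]
    constructor
    · rintro ⟨h, h1, h2⟩
      exact h1.2.2.trans h2.2
    · intro h
      refine ⟨fun k => if k = P hn 2 then g k else if k = P hn 3 then g k else f k, ?_, ?_⟩
      · simp [h]
      · simp
  unfold NR
  rw [rk_a, rk_x]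
  omega

theorem nr_xx : NR (vl (wx hn)) (vl (wx hn)) := by
  have h : vl (wx hn) * vl (wx hn) = Es {P hn 0, P hn 1} := by
    apply ext_C
    intro f g
    rw [mem_C_mul, mem_C_Es]
    simp only [C_x]
    constructor
    · rintro ⟨h, h1, h2⟩ k hk
      rcases hk with rfl | rfl
      · exact h1.1.trans h2.1
      · exact h1.2.1.trans h2.2.1
    · intro h
      have a0 := h (P hn 0) (by simp)
      have a1 := h (P hn 1) (by simp)
      refine ⟨fun k => if k = P hn 3 then f (P hn 2) else if k = P hn 2 then g (P hn 3) else f k, ?_, ?_⟩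
      · simp
      · simp [a0, a1]
  unfold NR
  rw [h, rk_Es_eq, card_two hn (by decide), rk_x]
  omega

theorem reg_a : RegW (wa hn) := ⟨ei {P hn 2, P hn 3}, by simp [wa], by simp [wa]⟩

theorem reg_x : RegW (wx hn) := by
  refine ⟨ei {P hn 0, P hn 1, P hn 2}, by simp [wx], ?_⟩
  rw [rk_x, coe_ei, rk_Es_eq, card_three hn (by decide) (by decide) (by decide)]

/-! ### weights -/

theorem mem_ker_b {f : Vec n} : f ∈ (vl (wb hn)).ker ↔ ∀ k, k ≠ P hn 4 → f k = 0 := by
  rw [mem_ker, C_b]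
  constructor
  · rintro ⟨h0, h1, h2⟩ k hk
    by_cases k0 : k = P hn 0
    · subst k0; exact h1.symm
    by_cases k1 : k = P hn 1
    · subst k1; exact h0.symm
    exact (h2 k k0 k1 hk).symm
  · intro h
    exact ⟨(h _ (by simp)).symm, (h _ (by simp)).symm, fun k _ _ hk => (h k hk).symm⟩

theorem mem_cok_b {f : Vec n} : f ∈ (vl (wb hn)).cok ↔ ∀ k, k ≠ P hn 4 → f k = 0 := by
  rw [mem_cok, C_b]
  constructor
  · rintro ⟨h0, h1, h2⟩ k hk
    by_cases k0 : k = P hn 0
    · subst k0; exact h0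
    by_cases k1 : k = P hn 1
    · subst k1; exact h1
    exact h2 k k0 k1 hk
  · intro h
    exact ⟨h _ (by simp), h _ (by simp), fun k _ _ hk => h k hk⟩

theorem finrank_K {K : Submodule (ZMod 2) (Vec n)} (h : ∀ f, f ∈ K ↔ ∀ k, k ≠ P hn 4 → f k = 0) :
    finrank (ZMod 2) K = 1 := by
  classical
  have h1 : K = Submodule.span (ZMod 2) {(Pi.single (P hn 4) 1 : Vec n)} := by
    ext f
    rw [h, Submodule.mem_span_singleton]
    constructor
    · intro h2
      refine ⟨f (P hn 4), ?_⟩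
      funext k
      by_cases hk : k = P hn 4
      · subst hk; simp
      · simp [hk, h2 k hk]
    · rintro ⟨c, rfl⟩ k hk
      simp [hk]
  rw [h1, finrank_span_singleton]
  intro h2
  have := congrFun h2 (P hn 4)
  simp at this

theorem cst_right {y : PM n} (h : (vl (wb hn)).ker ≤ y.cok) : cst y (vl (wb hn)) = 2 := by
  unfold cst tw
  rw [inf_eq_right.2 h, finrank_K hn (fun f => mem_ker_b hn)]
  norm_num

theorem cst_left {y : PM n} (h : (vl (wb hn)).cok ≤ y.ker) : cst (vl (wb hn)) y = 2 := by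
  unfold cst tw
  rw [inf_eq_left.2 h, finrank_K hn (fun f => mem_cok_b hn)]
  norm_num

theorem W_b : W (mkw (wb hn)) = 1 / 2 := by
  have h : mkw (wb hn) = sg (P hn 4) * ta (P hn 4) (P hn 0) * be (P hn 0) (P hn 4) *
      ta (P hn 0) (P hn 1) * be (P hn 1) (P hn 0) * ta (P hn 1) (P hn 4) * be (P hn 4) (P hn 1) := by
    unfold wb sg ta be
    simp only [mkw_cons, mkw_nil, mul_one, mul_assoc]
  rw [h, W_be _ (by simp), W_ta, W_be _ (by simp), W_ta, W_be _ (by simp), W_ta]
  unfold sg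
  rw [W_io, coe_si, cst_ss_ss]
  norm_num

theorem eq_ab : mkw (wa hn ++ wb hn) = mkw (wa hn) := by
  rw [mkw_append]
  have hv : val (mkw (wa hn) * mkw (wb hn)) = val (mkw (wa hn)) := by
    rw [map_mul, ← vl_eq, ← vl_eq, val_ab]
  apply F3 _ (reg_a hn).reg _ hv
  · rw [W_mul, W_b, ← vl_eq, ← vl_eq, cst_right hn]
    · ring
    · intro f hf
      rw [mem_ker_b] at hf
      rw [mem_cok, C_a]
      exact ⟨(hf _ (by simp)).symm, (hf _ (by simp)).symm⟩
  · exact (reg_a hn).reg.mul_right (by rw [← vl_eq, ← vl_eq, val_ab])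
  · rw [hv, ← vl_eq, rk_a]; omega

theorem eq_ba : mkw (wb hn ++ wa hn) = mkw (wa hn) := by
  rw [mkw_append]
  have hv : val (mkw (wb hn) * mkw (wa hn)) = val (mkw (wa hn)) := by
    rw [map_mul, ← vl_eq, ← vl_eq, val_ba]
  apply F3 _ (reg_a hn).reg _ hv
  · rw [W_mul, W_b, ← vl_eq, ← vl_eq, cst_left hn]
    · ring
    · intro f hf
      rw [mem_cok_b] at hf
      rw [mem_ker, C_a]
      exact ⟨hf _ (by simp), hf _ (by simp)⟩
  · exact reg_mul_left (reg_a hn).reg _ (by rw [← vl_eq, ← vl_eq, val_ba])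
  · rw [hv, ← vl_eq, rk_a]; omega

theorem bbx : vl (wb hn) * vl (wb hn) * vl (wx hn) = vl (wx hn) := by
  apply ext_C
  intro f g
  rw [mem_C_mul]
  simp only [val_bb, C_x]
  constructor
  · rintro ⟨h, h1, h2⟩
    rw [h1 _ (by simp), h1 _ (by simp), h1 _ (by simp)]
    exact h2
  · intro h
    exact ⟨f, fun _ _ => rfl, h⟩

theorem rk_bx : rk (vl (wb hn) * vl (wx hn)) = rk (vl (wx hn)) := by
  apply le_antisymm (rk_mul_le_right _ _)
  conv_lhs => rw [← bbx hn, mul_assoc]
  exact rk_mul_le_right _ _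

theorem eq_bx : mkw (wb hn ++ wx hn) = mkw (wx hn ++ wb hn) := by
  rw [mkw_append, mkw_append]
  have hv : val (mkw (wb hn) * mkw (wx hn)) = val (mkw (wx hn) * mkw (wb hn)) := by
    rw [map_mul, map_mul, ← vl_eq, ← vl_eq, val_bx]
  have hr := rk_bx hn
  apply F3 _ _ _ hv
  · rw [W_mul, W_mul, ← vl_eq, ← vl_eq, cst_left hn, cst_right hn]
    · ring
    · intro f hf
      rw [mem_ker_b] at hf
      rw [mem_cok, C_x]
      exact ⟨(hf _ (by simp)).symm, (hf _ (by simp)).symm, (hf _ (by simp)).symm⟩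
    · intro f hf
      rw [mem_cok_b] at hf
      rw [mem_ker, C_x]
      exact ⟨hf _ (by simp), hf _ (by simp), hf _ (by simp)⟩
  · exact reg_mul_left (reg_x hn).reg _ (by rw [← vl_eq, ← vl_eq, hr])
  · exact (reg_x hn).reg.mul_right (by rw [← vl_eq, ← vl_eq, ← val_bx, hr])
  · rw [map_mul, ← vl_eq, ← vl_eq, hr, rk_x]; omega

/-- the tail -/
def wv (m : ℕ) : List (Lt n) := (List.replicate m (wx hn)).flatten ++ wa hn

theorem wv_succ (m : ℕ) : wv hn (m + 1) = wx hn ++ wv hn m := by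
  simp [wv, List.replicate_succ]

theorem eq_bv (m : ℕ) : mkw (wb hn ++ wv hn m) = mkw (wv hn m) := by
  induction m with
  | zero => simpa [wv] using eq_ba hn
  | succ m ih =>
    rw [wv_succ, ← List.append_assoc, mkw_append, eq_bx, ← mkw_append, List.append_assoc, mkw_append,
      ih, ← mkw_append]

/-! ### the factorization -/

/-- the factors -/
def fac (m : ℕ) : List (List (Lt n)) := wa hn :: (List.replicate m (wx hn) ++ [wa hn])

theorem fac_flatten (m : ℕ) : (fac hn m).flatten = wa hn ++ wv hn m := by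
  simp [fac, wv]

theorem redW_tail' (m : ℕ) : RedW (List.replicate m (wx hn) ++ [wa hn]) := by
  induction m with
  | zero => exact ⟨by simpa using reg_a hn, by simp⟩
  | succ m ih =>
    rw [List.replicate_succ, List.cons_append]
    refine ⟨?_, ?_⟩
    · intro u hu
      rcases List.mem_cons.1 hu with rfl | hu
      · exact reg_x hn
      · exact ih.1 u hu
    · cases m with
      | zero =>
        simp only [List.replicate_zero, List.nil_append]
        rw [List.isChain_cons_cons]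
        exact ⟨nr_xa hn, by simp⟩
      | succ m =>
        have h2 := ih.2
        rw [List.replicate_succ, List.cons_append] at h2 ⊢
        rw [List.isChain_cons_cons]
        exact ⟨nr_xx hn, h2⟩

theorem redW_fac (m : ℕ) (hm : 1 ≤ m) : RedW (fac hn m) := by
  have h := redW_tail' hn m
  refine ⟨?_, ?_⟩
  · intro u hu
    rcases List.mem_cons.1 hu with rfl | hu
    · exact reg_a hn
    · exact h.1 u hu
  · obtain ⟨m, rfl⟩ : ∃ m', m = m' + 1 := ⟨m - 1, by omega⟩
    have h2 := h.2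
    unfold fac
    rw [List.replicate_succ, List.cons_append] at h2 ⊢
    rw [List.isChain_cons_cons]
    exact ⟨nr_ax hn, h2⟩

theorem flen_fac (m : ℕ) (hm : 1 ≤ m) : flen (wa hn ++ wv hn m) = m + 2 := by
  rw [← fac_flatten, flen_of_red (redW_fac hn m hm)]
  simp [fac]

theorem C_xm (m : ℕ) {f g : Vec n} (h : (f, g) ∈ (vl (List.replicate m (wx hn)).flatten).C) :
    f (P hn 0) = g (P hn 0) ∧ f (P hn 1) = g (P hn 1) := by
  induction m generalizing f with
  | zero =>
    simp only [List.replicate_zero, List.flatten_nil, vl_nil, mem_C_one] at h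
    rw [h]; exact ⟨rfl, rfl⟩
  | succ m ih =>
    rw [List.replicate_succ, List.flatten_cons, vl_append, mem_C_mul] at h
    obtain ⟨k, h1, h2⟩ := h
    rw [C_x] at h1
    have := ih h2
    exact ⟨h1.1.trans this.1, h1.2.1.trans this.2⟩

theorem C_v (m : ℕ) : ((Pi.single (P hn 0) 1 : Vec n), (0 : Vec n)) ∈ (vl (wv hn m)).C := by
  induction m with
  | zero =>
    have : vl (wv hn 0) = vl (wa hn) := by simp [wv]
    rw [this, C_a]
    simp
  | succ m ih =>
    rw [wv_succ, vl_append, mem_C_mul]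
    refine ⟨_, ?_, ih⟩
    rw [C_x]
    simp

theorem lg_ex (m : ℕ) (i : Fin 5) (hi : i = 0 ∨ i = 1) :
    LgW (wa hn ++ wv hn m) ((wa hn).length, P hn i) := by
  refine ⟨(wa hn).length, (wa hn).length + (List.replicate m (wx hn)).flatten.length, ?_, ?_, ?_, ?_,
    ⟨P hn i, Conn.refl _ _⟩, ⟨P hn i, ?_⟩⟩
  · simp
  · simp [wv]
  · rw [List.take_left']
    · exact reg_a hn
    · rfl
  · have : (wa hn ++ wv hn m).drop ((wa hn).length + (List.replicate m (wx hn)).flatten.length) =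
        wa hn := by
      unfold wv
      rw [← List.append_assoc, List.drop_left']
      rw [List.length_append]
    rw [this]
    exact reg_a hn
  · intro χ hχ
    unfold wv at hχ
    rw [col_append, col_append] at hχ
    have h := C_xm hn m (col_vl hχ.2.1)
    rcases hi with rfl | rfl
    · exact h.1
    · exact h.2

/-- gluing of colourings -/
theorem glue {u v : List (Lt n)} {f h g : Vec n} (h1 : (f, h) ∈ (vl u).C) (h2 : (h, g) ∈ (vl v).C) :
    ∃ χ : ℕ → Vec n, Col (u ++ v) χ ∧ χ u.length = h := by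
  obtain ⟨χ1, a1, a2, a3⟩ := exists_col h1
  obtain ⟨χ2, b1, b2, b3⟩ := exists_col h2
  refine ⟨fun k => if k ≤ u.length then χ1 k else χ2 (k - u.length), ?_, ?_⟩
  · rw [col_append]
    constructor
    · apply col_congr _ a1
      intro k hk
      simp only [hk, if_true]
    · apply col_congr _ b1
      intro k hk
      split_ifs with h3
      · have : k = 0 := by omega
        subst this
        rw [add_zero, a3, b2]
      · congr 1; omega
  · simp only [le_refl, if_true]
    exact a3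

/-- two different components -/
theorem not_conn {u v : List (Lt n)} {m : ℕ} (hu : vl u = vl (wa hn)) (hv : vl v = vl (wv hn m)) :
    ¬ Conn (u ++ v) (u.length, P hn 0) (u.length, P hn 1) := by
  intro h
  have h1 : ((0 : Vec n), (Pi.single (P hn 0) 1 : Vec n)) ∈ (vl u).C := by
    rw [hu, C_a]
    simp
  have h2 : ((Pi.single (P hn 0) 1 : Vec n), (0 : Vec n)) ∈ (vl v).C := by
    rw [hv]; exact C_v hn m
  obtain ⟨χ, h3, h4⟩ := glue h1 h2
  have h5 := h χ h3
  simp only [h4] at h5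
  simp at h5

end Pool.Agent.K9h89.IGN
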