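import Pool.Agent.K9h89.IGN.Rew
import Pool.Agent.K9h89.IGN.Ex

/-!
# No finite complete rewriting system
-/

set_option autoImplicit false

namespace Pool.Agent.K9h89.IGN

open Pool.Agent.H213 RkMonoid Relation PM

variable {n : ℕ}

theorem no_fcrs (hn : 5 ≤ n) {A : Type} [Finite A] (tr : A → List (Lt n))
    (R : Set (List A × List A)) (hfin : R.Finite)
    (hR : ∀ l r, (l, r) ∈ R → mkw (trw tr l) = mkw (trw tr r))
    (wf : WellFounded (fun b a => RStep R a b))
    (conf : ∀ a b c, ReflTransGen (RStep R) a b → ReflTransGen (RStep R) a c →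
      ∃ d, ReflTransGen (RStep R) b d ∧ ReflTransGen (RStep R) c d)
    (hsurj : ∀ w : List (Lt n), w ≠ [] → ∃ u : List A, u ≠ [] ∧ mkw (trw tr u) = mkw w)
    (hpres : ∀ u v : List A, u ≠ [] → v ≠ [] → mkw (trw tr u) = mkw (trw tr v) →
      EqvGen (RStep R) u v) : False := by
  obtain ⟨M, hM⟩ : ∃ M, ∀ a, (tr a).length ≤ M := by
    obtain ⟨M, hM⟩ := (Set.finite_range (fun a => (tr a).length)).bddAbove
    exact ⟨M, fun a => hM ⟨a, rfl⟩⟩
  obtain ⟨L, hL⟩ : ∃ L, ∀ l r, (l, r) ∈ R → l.length ≤ L := by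
    obtain ⟨L, hL⟩ := (hfin.image (fun p => p.1.length)).bddAbove
    exact ⟨L, fun l r h => hL ⟨(l, r), h, rfl⟩⟩
  set k := M * (L + L + 1) + 3 with hk
  obtain ⟨m, hm⟩ : ∃ m, k = m + 2 := ⟨M * (L + L + 1) + 1, by omega⟩
  have hm1 : 1 ≤ m := by omega
  obtain ⟨U, nU, hU⟩ := hsurj (wa hn) (by simp [wa])
  obtain ⟨B, nB, hB⟩ := hsurj (wb hn) (by simp [wb])
  obtain ⟨V, nV, hV⟩ := hsurj (wv hn m) (by simp [wv, wa])
  have hfl : flen (trw tr (U ++ V)) = k := by
    rw [hm, ← flen_fac hn m hm1]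
    apply flen_congr
    rw [trw_append, mkw_append, hU, hV, mkw_append]
  have hlg : ∀ i : Fin 5, (i = 0 ∨ i = 1) → LgA tr k U V (P hn i) := by
    intro i hi
    refine ⟨hfl, ?_⟩
    have h0 := lg_ex hn m i hi
    have h3 : 3 ≤ flen (wa hn ++ wv hn m) := by rw [flen_fac hn m hm1]; omega
    have h4 : 3 ≤ flen (wa hn ++ trw tr V) := by
      rw [flen_congr (v := wa hn ++ wv hn m) (by rw [mkw_append, mkw_append, hV])]
      exact h3
    rw [lgW_right hV.symm h3, lgW_left hU.symm h4, ← trw_append] at h0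
    exact h0
  have h1 : EqvGen (RStep R) (U ++ B) U := by
    apply hpres _ _ (by simp [nU]) nU
    rw [trw_append, mkw_append, hU, hB, ← mkw_append, eq_ab]
  have h2 : EqvGen (RStep R) (B ++ V) V := by
    apply hpres _ _ (by simp [nB]) nV
    rw [trw_append, mkw_append, hV, hB, ← mkw_append, eq_bv]
  have hb : ∀ f g : Vec n, (f, g) ∈ (vl (trw tr B)).C → f (P hn 1) = g (P hn 0) := by
    intro f g h
    rw [vl_eq, hB, ← vl_eq, C_b] at h
    exact h.1.symm
  have := no_swap hR hM hL le_rfl conf wf h1 h2 hb (hlg 0 (Or.inl rfl)) (hlg 1 (Or.inr rfl))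
  rw [trw_append] at this
  exact not_conn hn (by rw [vl_eq, hU, ← vl_eq]) (by rw [vl_eq, hV, ← vl_eq]) this

end Pool.Agent.K9h89.IGN
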