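import Pool.Agent.helper213_IG.Words

/-!
# The number of factors of a reduced factorization
-/

set_option autoImplicit false

namespace Pool.Agent.K9h89.IGN

open Pool.Agent.H213 RkMonoid Relation

variable {S : Type*} [RkMonoid S]

/-- the number of regular factors of a reduced factorization -/
noncomputable def flen (w : List (Idem S)) : ℕ := (redF w).length

theorem mv_length {X Y : List (IG S)} (h : EqvGen MvStep X Y) : X.length = Y.length := by
  induction h with
  | rel X Y h =>
    obtain ⟨l, r, x, y, e, _, _, _, _, rfl, rfl⟩ := h
    simp
  | refl x => rfl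
  | symm x y _ ih => exact ih.symm
  | trans x y z _ _ ih1 ih2 => exact ih1.trans ih2

theorem flen_of_red {U : List (List (Idem S))} (hU : RedW U) : flen U.flatten = U.length := by
  have h := mv_length (red_unique (redF_spec U.flatten).1 hU (redF_spec U.flatten).2)
  simpa [flen] using h

theorem flen_congr {u v : List (Idem S)} (h : mkw u = mkw v) : flen u = flen v := by
  have h1 := mv_length (red_of_eqvGen (mkw_eq_iff.1 h))
  simpa [flen] using h1

theorem insF_length (V : List (List (Idem S))) : ∀ u, (insF u V).length ≤ V.length + 1 := by
  induction V with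
  | nil => intro u; simp [insF]
  | cons v V ih =>
    intro u
    rw [insF]
    split_ifs
    · have := ih (u ++ v)
      simp only [List.length_cons]
      omega
    · simp

theorem exists_red (U : List (List (Idem S))) (h : ∀ u ∈ U, RegW u) :
    ∃ V, RedW V ∧ V.flatten = U.flatten ∧ V.length ≤ U.length := by
  induction U with
  | nil => exact ⟨[], ⟨by simp, by simp⟩, rfl, le_rfl⟩
  | cons u U ih =>
    obtain ⟨V, h1, h2, h3⟩ := ih (fun a ha => h a (List.mem_cons_of_mem _ ha))
    have h4 := insF_spec V u (h u (by simp)) h1
    refine ⟨insF u V, h4.1, by rw [h4.2, h2]; rfl, ?_⟩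
    have := insF_length V u
    simp only [List.length_cons]
    omega

theorem flen_le_of {U : List (List (Idem S))} (h : ∀ u ∈ U, RegW u) : flen U.flatten ≤ U.length := by
  obtain ⟨V, h1, h2, h3⟩ := exists_red U h
  rw [← h2, flen_of_red h1]
  exact h3

theorem flen_append_le (u v : List (Idem S)) : flen (u ++ v) ≤ flen u + flen v := by
  have h1 := redF_spec u
  have h2 := redF_spec v
  have h3 : ((redF u) ++ (redF v)).flatten = u ++ v := by
    rw [List.flatten_append, h1.2, h2.2]
  have h4 : flen ((redF u) ++ (redF v)).flatten ≤ ((redF u) ++ (redF v)).length := by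
    apply flen_le_of
    intro a ha
    rcases List.mem_append.1 ha with h | h
    · exact h1.1.1 a h
    · exact h2.1.1 a h
  rw [h3, List.length_append] at h4
  exact h4

theorem flen_le_length (w : List (Idem S)) : flen w ≤ w.length := by
  have h : flen (w.map (fun a => [a])).flatten ≤ (w.map (fun a => [a])).length := by
    apply flen_le_of
    intro u hu
    obtain ⟨a, _, rfl⟩ := List.mem_map.1 hu
    exact regW_singleton a
  have h2 : (w.map (fun a => [a])).flatten = w := by
    induction w with
    | nil => rfl
    | cons a w ih =>
      simp only [List.map_cons, List.flatten_cons, List.singleton_append, List.cons.injEq, true_and]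
      apply ih
      apply flen_le_of
      intro u hu
      obtain ⟨a, _, rfl⟩ := List.mem_map.1 hu
      exact regW_singleton a
  rw [h2, List.length_map] at h
  exact h

theorem flen_reg {w : List (Idem S)} (h : RegW w) : flen w ≤ 1 := by
  have := flen_le_of (U := [w]) (by simpa using h)
  simpa using this

theorem flen_nil : flen ([] : List (Idem S)) = 0 := by simp [flen, redF]

/-- overlapping regular prefix and suffix -/
theorem overlap {u z v : List (Idem S)} (h1 : RegW (u ++ z)) (h2 : RegW (z ++ v)) :
    flen (u ++ z ++ v) ≤ 2 := by
  obtain ⟨e, he, hr⟩ := h1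
  rcases List.mem_append.1 he with h | h
  · -- seed in `u`
    have h3 : RegW u := ⟨e, h, le_antisymm (rk_vl_le h) (hr ▸ rk_vl_append_left u z)⟩
    have h4 := flen_append_le u (z ++ v)
    have h5 := flen_reg h3
    have h6 := flen_reg h2
    rw [List.append_assoc]
    omega
  · -- seed in `z`
    have h3 : rk (vl u * vl z) = rk (vl z) := by
      rw [← vl_append]
      apply le_antisymm (rk_vl_append_right u z)
      rw [hr]; exact rk_vl_le h
    have h4 := rk_mul_right_congr h3 (vl v)
    obtain ⟨f, hf, hs⟩ := h2
    have h5 : RegW (u ++ z ++ v) := by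
      refine ⟨f, ?_, ?_⟩
      · rw [List.append_assoc]; exact List.mem_append.2 (Or.inr hf)
      · rw [← hs, vl_append, vl_append, vl_append]; exact h4
    have := flen_reg h5
    omega

end Pool.Agent.K9h89.IGN
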