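import Pool.Agent.K9h89.IGN.Col
import Pool.Agent.K9h89.IGN.Flen

/-!
# Long components persist
-/

set_option autoImplicit false

namespace Pool.Agent.K9h89.IGN

open Pool.Agent.H213 RkMonoid Relation PM

variable {n : ℕ}

/-- the component of `x` meets a row after a regular prefix and a row before a regular suffix -/
def LgW (w : List (Lt n)) (x : ℕ × Fin n) : Prop :=
  ∃ i j, i ≤ w.length ∧ j ≤ w.length ∧ RegW (w.take i) ∧ RegW (w.drop j) ∧ Tch w x i ∧ Tch w x j

theorem LgW.of_conn {w : List (Lt n)} {x y : ℕ × Fin n} (h : Conn w x y) (h' : LgW w y) : LgW w x := by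
  obtain ⟨i, j, h1, h2, h3, h4, h5, h6⟩ := h'
  exact ⟨i, j, h1, h2, h3, h4, Tch.of_conn h h5, Tch.of_conn h h6⟩

theorem rows_lt {w : List (Lt n)} {i j : ℕ} (h1 : RegW (w.take i))
    (h2 : RegW (w.drop j)) (h3 : 3 ≤ flen w) : i < j := by
  by_contra h
  push Not at h
  have e1 : w.take i = w.take j ++ (w.take i).drop j := by
    conv_lhs => rw [← List.take_append_drop j (w.take i)]
    rw [List.take_take, min_eq_left h]
  have e2 : w.drop j = (w.take i).drop j ++ w.drop i := by
    conv_lhs => rw [← List.take_append_drop i w]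
    rw [List.drop_append]
    by_cases hi : i ≤ w.length
    · rw [List.length_take, min_eq_left hi, Nat.sub_eq_zero_of_le h, List.drop_zero]
    · push Not at hi
      have : w.drop i = [] := List.drop_eq_nil_of_le hi.le
      rw [this]; simp
  have e3 : w.take j ++ (w.take i).drop j ++ w.drop i = w := by
    rw [← e1, List.take_append_drop]
  rw [e1] at h1
  rw [e2] at h2
  have := overlap h1 h2
  rw [e3] at this
  omega

theorem LgW.rows {w : List (Lt n)} {x : ℕ × Fin n} (h : LgW w x) (h3 : 3 ≤ flen w) :
    ∃ i j, i < j ∧ j ≤ w.length ∧ flen w ≤ 2 + (j - i) ∧ ∀ k, i ≤ k → k ≤ j → Tch w x k := by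
  obtain ⟨i, j, h1, h2, h4, h5, h6, h7⟩ := h
  have hij := rows_lt h4 h5 h3
  refine ⟨i, j, hij, h2, ?_, fun k hk1 hk2 => tch_between h6 h7 hk1 hk2⟩
  have e1 : w = w.take i ++ ((w.take j).drop i ++ w.drop j) := by
    have h8 : w.take i = (w.take j).take i := by rw [List.take_take, min_eq_left hij.le]
    rw [← List.append_assoc, h8, List.take_append_drop, List.take_append_drop]
  have h8 := flen_append_le (w.take i) ((w.take j).drop i ++ w.drop j)
  have h9 := flen_append_le ((w.take j).drop i) (w.drop j)
  have h10 := flen_reg h4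
  have h11 := flen_reg h5
  have h12 := flen_le_length ((w.take j).drop i)
  rw [← e1] at h8
  rw [List.length_drop, List.length_take] at h12
  omega

theorem reg_left {p : List (Lt n)} {a b : Lt n} (hb : Basic (a : PM n) (b : PM n))
    (h : RegW (p ++ [a])) : RegW (p ++ [a, b]) ∨
      (RegW p ∧ rk ((a : PM n) * (b : PM n)) = rk (b : PM n)) := by
  obtain ⟨e, he, hr⟩ := h
  have hv : vl (p ++ [a]) = vl p * (a : PM n) := by simp
  have hv2 : vl (p ++ [a, b]) = vl p * ((a : PM n) * (b : PM n)) := by simp
  rcases rk_basic a.2 b.2 hb with h1 | h1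
  · left
    refine ⟨e, ?_, ?_⟩
    · rcases List.mem_append.1 he with h | h
      · exact List.mem_append.2 (Or.inl h)
      · refine List.mem_append.2 (Or.inr ?_)
        rw [List.mem_singleton] at h
        rw [h]; simp
    · rw [hv2, rk_mul_left_congr h1, ← hv, hr]
  · rcases List.mem_append.1 he with h | h
    · right
      refine ⟨⟨e, h, le_antisymm (rk_vl_le h) ?_⟩, h1⟩
      rw [← hr]; exact rk_vl_append_left _ _
    · left
      rw [List.mem_singleton] at h
      subst h
      refine ⟨b, by simp, ?_⟩
      rw [hv] at hr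
      rw [hv2, ← mul_assoc, rk_mul_right_congr hr, h1]

theorem reg_right {q : List (Lt n)} {a b : Lt n} (hb : Basic (a : PM n) (b : PM n))
    (h : RegW (b :: q)) : RegW (a :: b :: q) ∨
      (RegW q ∧ rk ((a : PM n) * (b : PM n)) = rk (a : PM n)) := by
  obtain ⟨e, he, hr⟩ := h
  have hv : vl (b :: q) = (b : PM n) * vl q := by simp
  have hv2 : vl (a :: b :: q) = (a : PM n) * (b : PM n) * vl q := by simp [mul_assoc]
  rcases rk_basic a.2 b.2 hb with h1 | h1
  · rcases List.mem_cons.1 he with h | h
    · left
      subst h
      refine ⟨a, by simp, ?_⟩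
      rw [hv] at hr
      rw [hv2, mul_assoc, rk_mul_left_congr hr, h1]
    · right
      refine ⟨⟨e, h, le_antisymm (rk_vl_le h) ?_⟩, h1⟩
      rw [← hr, hv]; exact rk_mul_le_right _ _
  · left
    refine ⟨e, List.mem_cons_of_mem _ he, ?_⟩
    rw [hv2, rk_mul_right_congr h1, ← hv, hr]

/-- the row of the long word -/
def up (m k : ℕ) : ℕ := if k ≤ m then k else k + 1

theorem up_lo {m k : ℕ} (h : k ≤ m) : up m k = k := if_pos h
theorem up_hi {m k : ℕ} (h : m < k) : up m k = k + 1 := if_neg (by omega)

section step

variable {p q : List (Lt n)} {a b c : Lt n}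

theorem take_lo (l : List (Lt n)) {i : ℕ} (hi : i ≤ p.length) : (p ++ l ++ q).take i = p.take i := by
  rw [List.append_assoc, List.take_append_of_le_length hi]

theorem take_hi (l : List (Lt n)) (t : ℕ) :
    (p ++ l ++ q).take (p.length + l.length + t) = p ++ l ++ q.take t := by
  rw [List.take_append, List.take_of_length_le (by rw [List.length_append]; omega)]
  congr 2
  rw [List.length_append]; omega

theorem drop_lo (l : List (Lt n)) {i : ℕ} (hi : i ≤ p.length) :
    (p ++ l ++ q).drop i = p.drop i ++ l ++ q := by
  rw [List.append_assoc, List.drop_append_of_le_length hi, List.append_assoc]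

theorem drop_hi (l : List (Lt n)) (t : ℕ) :
    (p ++ l ++ q).drop (p.length + l.length + t) = q.drop t := by
  rw [List.drop_append, List.drop_eq_nil_of_le (by rw [List.length_append]; omega), List.nil_append]
  congr 1
  rw [List.length_append]; omega

theorem reg_take_iff (hb : Basic (a : PM n) (b : PM n)) (hc : (a : PM n) * (b : PM n) = c) (i : ℕ) :
    RegW ((p ++ [a, b] ++ q).take (up p.length i)) ↔ RegW ((p ++ [c] ++ q).take i) := by
  by_cases h : i ≤ p.length
  · rw [up_lo h, take_lo _ h, take_lo _ h]
  · push Not at h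
    obtain ⟨t, rfl⟩ : ∃ t, i = p.length + [c].length + t := ⟨i - (p.length + 1), by simp; omega⟩
    have h1 : up p.length (p.length + [c].length + t) = p.length + [a, b].length + t := by
      rw [up_hi (by simp; omega)]; simp; omega
    rw [h1, take_hi, take_hi]
    exact regW_step_iff hb hc

theorem reg_drop_iff (hb : Basic (a : PM n) (b : PM n)) (hc : (a : PM n) * (b : PM n) = c) (i : ℕ) :
    RegW ((p ++ [a, b] ++ q).drop (up p.length i)) ↔ RegW ((p ++ [c] ++ q).drop i) := by
  by_cases h : i ≤ p.length
  · rw [up_lo h, drop_lo _ h, drop_lo _ h]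
    exact regW_step_iff hb hc
  · push Not at h
    obtain ⟨t, rfl⟩ : ∃ t, i = p.length + [c].length + t := ⟨i - (p.length + 1), by simp; omega⟩
    have h1 : up p.length (p.length + [c].length + t) = p.length + [a, b].length + t := by
      rw [up_hi (by simp; omega)]; simp; omega
    rw [h1, drop_hi, drop_hi]

theorem vl_two (hc : (a : PM n) * (b : PM n) = c) : vl [a, b] = vl [c] := by simp [hc]

theorem conn_step (hc : (a : PM n) * (b : PM n) = c) (k k' : ℕ) (r r' : Fin n) :
    Conn (p ++ [a, b] ++ q) (up p.length k, r) (up p.length k', r') ↔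
      Conn (p ++ [c] ++ q) (k, r) (k', r') := by
  constructor
  · intro h χ' hχ'
    obtain ⟨χ, h1, h2, h3⟩ := surgery (vl_two hc).symm hχ'
    have key : ∀ k, χ (up p.length k) = χ' k := by
      intro k
      by_cases h4 : k ≤ p.length
      · rw [up_lo h4]; exact h2 k h4
      · push Not at h4
        obtain ⟨t, rfl⟩ : ∃ t, k = p.length + [c].length + t := ⟨k - (p.length + 1), by simp; omega⟩
        have h5 : up p.length (p.length + [c].length + t) = p.length + [a, b].length + t := by
          rw [up_hi (by simp; omega)]; simp; omega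
        rw [h5]; exact h3 t
    have := h χ h1
    simp only [key] at this
    exact this
  · intro h χ hχ
    obtain ⟨χ', h1, h2, h3⟩ := surgery (vl_two hc) hχ
    have key : ∀ k, χ (up p.length k) = χ' k := by
      intro k
      by_cases h4 : k ≤ p.length
      · rw [up_lo h4]; exact (h2 k h4).symm
      · push Not at h4
        obtain ⟨t, rfl⟩ : ∃ t, k = p.length + [c].length + t := ⟨k - (p.length + 1), by simp; omega⟩
        have h5 : up p.length (p.length + [c].length + t) = p.length + [a, b].length + t := by
          rw [up_hi (by simp; omega)]; simp; omega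
        rw [h5]; exact (h3 t).symm
    have := h χ' h1
    simp only [key]
    exact this

theorem tch_step (hc : (a : PM n) * (b : PM n) = c) (k k' : ℕ) (r : Fin n) :
    Tch (p ++ [a, b] ++ q) (up p.length k, r) (up p.length k') ↔ Tch (p ++ [c] ++ q) (k, r) k' :=
  exists_congr (fun r' => conn_step hc k k' r r')

theorem len_up {i : ℕ} (h : up p.length i ≤ (p ++ [a, b] ++ q).length) :
    i ≤ (p ++ [c] ++ q).length := by
  unfold up at h
  simp only [List.length_append, List.length_cons, List.length_nil] at h ⊢
  split_ifs at h <;> omega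

theorem len_up' {i : ℕ} (h : i ≤ (p ++ [c] ++ q).length) :
    up p.length i ≤ (p ++ [a, b] ++ q).length := by
  unfold up
  simp only [List.length_append, List.length_cons, List.length_nil] at h ⊢
  split_ifs <;> omega

theorem lgW_step (hb : Basic (a : PM n) (b : PM n)) (hc : (a : PM n) * (b : PM n) = c)
    (h3 : 3 ≤ flen (p ++ [a, b] ++ q)) (k : ℕ) (r : Fin n) :
    LgW (p ++ [a, b] ++ q) (up p.length k, r) ↔ LgW (p ++ [c] ++ q) (k, r) := by
  constructor
  · rintro ⟨i, j, hi, hj, hri, hrj, hti, htj⟩
    have hij := rows_lt hri hrj h3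
    have hm : p.length + 1 < (p ++ [a, b] ++ q).length := by simp
    have ga : (p ++ [a, b] ++ q)[p.length]'(by omega) = a := by simp
    have gb : (p ++ [a, b] ++ q)[p.length + 1] = b := by simp
    have hI : ∃ i', i' ≤ (p ++ [c] ++ q).length ∧ RegW ((p ++ [c] ++ q).take i') ∧
        Tch (p ++ [c] ++ q) (k, r) i' := by
      have fin : ∀ i', up p.length i' ≤ (p ++ [a, b] ++ q).length →
          RegW ((p ++ [a, b] ++ q).take (up p.length i')) →
          Tch (p ++ [a, b] ++ q) (up p.length k, r) (up p.length i') →
          ∃ i', i' ≤ (p ++ [c] ++ q).length ∧ RegW ((p ++ [c] ++ q).take i') ∧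
            Tch (p ++ [c] ++ q) (k, r) i' := fun i' h1 h2 h4 =>
        ⟨i', len_up h1, (reg_take_iff hb hc i').1 h2, (tch_step hc k i' r).1 h4⟩
      rcases lt_trichotomy i (p.length + 1) with h | h | h
      · have hu : up p.length i = i := up_lo (by omega)
        exact fin i (by rw [hu]; exact hi) (by rw [hu]; exact hri) (by rw [hu]; exact hti)
      · subst h
        have ht2 := tch_between hti htj (by omega : p.length + 1 ≤ p.length + 2) (by omega)
        have e1 : (p ++ [a, b] ++ q).take (p.length + 1) = p ++ [a] := by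
          rw [List.append_assoc, List.take_append]
          simp
        rw [e1] at hri
        rcases reg_left hb hri with h | ⟨h, h5⟩
        · have hu : up p.length (p.length + 1) = p.length + 2 := up_hi (by omega)
          refine fin (p.length + 1) (by rw [hu]; omega) ?_ (by rw [hu]; exact ht2)
          rw [hu]
          have := take_hi (p := p) (q := q) [a, b] 0
          simp only [add_zero, List.take_zero, List.append_nil] at this
          rw [show p.length + 2 = p.length + [a, b].length from rfl, this]
          exact h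
        · have ht0 := tch_left hm (by rw [ga, gb]; exact h5) hti ht2
          have hu : up p.length p.length = p.length := up_lo le_rfl
          refine fin p.length (by rw [hu]; omega) ?_ (by rw [hu]; exact ht0)
          rw [hu, take_lo _ le_rfl, List.take_length]
          exact h
      · have hu : up p.length (i - 1) = i := by rw [up_hi (by omega)]; omega
        exact fin (i - 1) (by rw [hu]; exact hi) (by rw [hu]; exact hri) (by rw [hu]; exact hti)
    have hJ : ∃ j', j' ≤ (p ++ [c] ++ q).length ∧ RegW ((p ++ [c] ++ q).drop j') ∧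
        Tch (p ++ [c] ++ q) (k, r) j' := by
      have fin : ∀ i', up p.length i' ≤ (p ++ [a, b] ++ q).length →
          RegW ((p ++ [a, b] ++ q).drop (up p.length i')) →
          Tch (p ++ [a, b] ++ q) (up p.length k, r) (up p.length i') →
          ∃ j', j' ≤ (p ++ [c] ++ q).length ∧ RegW ((p ++ [c] ++ q).drop j') ∧
            Tch (p ++ [c] ++ q) (k, r) j' := fun i' h1 h2 h4 =>
        ⟨i', len_up h1, (reg_drop_iff hb hc i').1 h2, (tch_step hc k i' r).1 h4⟩
      rcases lt_trichotomy j (p.length + 1) with h | h | h
      · have hu : up p.length j = j := up_lo (by omega)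
        exact fin j (by rw [hu]; exact hj) (by rw [hu]; exact hrj) (by rw [hu]; exact htj)
      · subst h
        have ht0 := tch_between hti htj (by omega : i ≤ p.length) (by omega)
        have e1 : (p ++ [a, b] ++ q).drop (p.length + 1) = b :: q := by
          rw [List.append_assoc, List.drop_append]
          simp
        rw [e1] at hrj
        rcases reg_right hb hrj with h | ⟨h, h5⟩
        · have hu : up p.length p.length = p.length := up_lo le_rfl
          refine fin p.length (by rw [hu]; omega) ?_ (by rw [hu]; exact ht0)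
          rw [hu, drop_lo _ le_rfl, List.drop_length]
          exact h
        · have ht2 := tch_right hm (by rw [ga, gb]; exact h5) htj ht0
          have hu : up p.length (p.length + 1) = p.length + 2 := up_hi (by omega)
          refine fin (p.length + 1) (by rw [hu]; omega) ?_ (by rw [hu]; exact ht2)
          rw [hu]
          have := drop_hi (p := p) (q := q) [a, b] 0
          simp only [add_zero, List.drop_zero] at this
          rw [show p.length + 2 = p.length + [a, b].length from rfl, this]
          exact h
      · have hu : up p.length (j - 1) = j := by rw [up_hi (by omega)]; omega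
        exact fin (j - 1) (by rw [hu]; exact hj) (by rw [hu]; exact hrj) (by rw [hu]; exact htj)
    obtain ⟨i', h1, h2, h4⟩ := hI
    obtain ⟨j', h5, h6, h7⟩ := hJ
    exact ⟨i', j', h1, h5, h2, h6, h4, h7⟩
  · rintro ⟨i, j, hi, hj, hri, hrj, hti, htj⟩
    exact ⟨up p.length i, up p.length j, len_up' hi, len_up' hj, (reg_take_iff hb hc i).2 hri,
      (reg_drop_iff hb hc j).2 hrj, (tch_step hc k i r).2 hti, (tch_step hc k j r).2 htj⟩

end step

theorem lgW_right_aux (u : List (Lt n)) (r : Fin n) {v v' : List (Lt n)} (h : EqvGen StepW v v') :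
    3 ≤ flen (u ++ v) → (LgW (u ++ v) (u.length, r) ↔ LgW (u ++ v') (u.length, r)) := by
  induction h with
  | rel x y h =>
    intro h3
    obtain ⟨p, q, a, b, c, hb, hc, rfl, rfl⟩ := h
    have e1 : u ++ (p ++ [a, b] ++ q) = (u ++ p) ++ [a, b] ++ q := by simp
    have e2 : u ++ (p ++ [c] ++ q) = (u ++ p) ++ [c] ++ q := by simp
    have h4 := lgW_step (p := u ++ p) (q := q) hb hc (by rw [← e1]; exact h3) u.length r
    rw [up_lo (by simp)] at h4
    rw [e1, e2]; exact h4
  | refl x => intro _; rfl
  | symm x y h ih =>
    intro h3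
    have : flen (u ++ x) = flen (u ++ y) := flen_congr (by rw [mkw_append, mkw_append, mkw_eq_iff.2 h])
    exact (ih (by rw [this]; exact h3)).symm
  | trans x y z h1 _ ih1 ih2 =>
    intro h3
    have : flen (u ++ x) = flen (u ++ y) := flen_congr (by rw [mkw_append, mkw_append, mkw_eq_iff.2 h1])
    exact (ih1 h3).trans (ih2 (by rw [← this]; exact h3))

theorem lgW_right {u v v' : List (Lt n)} (h : mkw v = mkw v') (h3 : 3 ≤ flen (u ++ v)) (r : Fin n) :
    LgW (u ++ v) (u.length, r) ↔ LgW (u ++ v') (u.length, r) :=
  lgW_right_aux u r (mkw_eq_iff.1 h) h3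

theorem lgW_left_aux (v : List (Lt n)) (r : Fin n) {u u' : List (Lt n)} (h : EqvGen StepW u u') :
    3 ≤ flen (u ++ v) → (LgW (u ++ v) (u.length, r) ↔ LgW (u' ++ v) (u'.length, r)) := by
  induction h with
  | rel x y h =>
    intro h3
    obtain ⟨p, q, a, b, c, hb, hc, rfl, rfl⟩ := h
    have e1 : (p ++ [a, b] ++ q) ++ v = p ++ [a, b] ++ (q ++ v) := by simp
    have e2 : (p ++ [c] ++ q) ++ v = p ++ [c] ++ (q ++ v) := by simp
    have h4 := lgW_step (p := p) (q := q ++ v) hb hc (by rw [← e1]; exact h3)
      (p ++ [c] ++ q).length r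
    rw [up_hi (by simp only [List.length_append, List.length_cons, List.length_nil]; omega)] at h4
    rw [e1, e2]
    have e3 : (p ++ [a, b] ++ q).length = (p ++ [c] ++ q).length + 1 := by
      simp only [List.length_append, List.length_cons, List.length_nil]; omega
    rw [e3]; exact h4
  | refl x => intro _; rfl
  | symm x y h ih =>
    intro h3
    have : flen (x ++ v) = flen (y ++ v) := flen_congr (by rw [mkw_append, mkw_append, mkw_eq_iff.2 h])
    exact (ih (by rw [this]; exact h3)).symm
  | trans x y z h1 _ ih1 ih2 =>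
    intro h3
    have : flen (x ++ v) = flen (y ++ v) := flen_congr (by rw [mkw_append, mkw_append, mkw_eq_iff.2 h1])
    exact (ih1 h3).trans (ih2 (by rw [← this]; exact h3))

theorem lgW_left {u u' v : List (Lt n)} (h : mkw u = mkw u') (h3 : 3 ≤ flen (u ++ v)) (r : Fin n) :
    LgW (u ++ v) (u.length, r) ↔ LgW (u' ++ v) (u'.length, r) :=
  lgW_left_aux v r (mkw_eq_iff.1 h) h3

end Pool.Agent.K9h89.IGN
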