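import Pool.Agent.K9h89.IGN.Long

/-!
# Complete rewriting systems do not permute long components
-/

set_option autoImplicit false

namespace Pool.Agent.K9h89.IGN

open Pool.Agent.H213 RkMonoid Relation PM

/-! ### Newman's lemma -/

section newman

variable {E : Type*} {r : E → E → Prop}

theorem newman (wf : WellFounded (fun b a => r a b))
    (lc : ∀ a b c, r a b → r a c → ∃ d, ReflTransGen r b d ∧ ReflTransGen r c d) :
    ∀ a b c, ReflTransGen r a b → ReflTransGen r a c → ∃ d, ReflTransGen r b d ∧ ReflTransGen r c d := by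
  intro a
  induction a using wf.induction with
  | _ a ih =>
    intro b c hb hc
    rcases ReflTransGen.cases_head hb with rfl | ⟨b', hb1, hb2⟩
    · exact ⟨c, hc, ReflTransGen.refl⟩
    rcases ReflTransGen.cases_head hc with rfl | ⟨c', hc1, hc2⟩
    · exact ⟨b, ReflTransGen.refl, hb⟩
    obtain ⟨d, hd1, hd2⟩ := lc a b' c' hb1 hc1
    obtain ⟨e, he1, he2⟩ := ih b' hb1 b d hb2 hd1
    obtain ⟨f, hf1, hf2⟩ := ih c' hc1 c e hc2 (hd2.trans he2)
    exact ⟨f, he1.trans hf2, hf1⟩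

theorem church (cf : ∀ a b c, ReflTransGen r a b → ReflTransGen r a c →
    ∃ d, ReflTransGen r b d ∧ ReflTransGen r c d) {a b : E} (h : EqvGen r a b) :
    ∃ d, ReflTransGen r a d ∧ ReflTransGen r b d := by
  induction h with
  | rel a b h => exact ⟨b, ReflTransGen.single h, ReflTransGen.refl⟩
  | refl a => exact ⟨a, ReflTransGen.refl, ReflTransGen.refl⟩
  | symm a b _ ih => obtain ⟨d, h1, h2⟩ := ih; exact ⟨d, h2, h1⟩
  | trans a b c _ _ ih1 ih2 =>
    obtain ⟨d, h1, h2⟩ := ih1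
    obtain ⟨e, h3, h4⟩ := ih2
    obtain ⟨f, h5, h6⟩ := cf b d e h2 h3
    exact ⟨f, h1.trans h5, h4.trans h6⟩

end newman

/-! ### words over another alphabet -/

variable {n : ℕ} {A : Type} (tr : A → List (Lt n)) (R : Set (List A × List A))

/-- translation of words -/
def trw (w : List A) : List (Lt n) := w.flatMap tr

theorem trw_append (u v : List A) : trw tr (u ++ v) = trw tr u ++ trw tr v := by
  simp [trw, List.flatMap_append]

/-- a rewriting step -/
def RStep (w w' : List A) : Prop := ∃ x l r y, (l, r) ∈ R ∧ w = x ++ l ++ y ∧ w' = x ++ r ++ y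

/-- the component of a pointed word -/
def cs (U V : List A) (p : Fin n) : Set (ℕ × Fin n) :=
  {x | Conn (trw tr (U ++ V)) ((trw tr U).length, p) x}

/-- a word with a component -/
def st (U V : List A) (p : Fin n) : List A × Set (ℕ × Fin n) := (U ++ V, cs tr U V p)

/-- the component is long -/
def LgA (k : ℕ) (U V : List A) (p : Fin n) : Prop :=
  flen (trw tr (U ++ V)) = k ∧ LgW (trw tr (U ++ V)) ((trw tr U).length, p)

/-- rewriting of words with a long component -/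
def ERel (k : ℕ) (c d : List A × Set (ℕ × Fin n)) : Prop :=
  ∃ U V U' V' p, LgA tr k U V p ∧ ((RStep R U U' ∧ V' = V) ∨ (U' = U ∧ RStep R V V')) ∧
    c = st tr U V p ∧ d = st tr U' V' p

variable {tr R}

theorem st_eq {U V U' V' : List A} {p p' : Fin n} (h : U ++ V = U' ++ V')
    (hc : Conn (trw tr (U ++ V)) ((trw tr U).length, p) ((trw tr U').length, p')) :
    st tr U V p = st tr U' V' p' := by
  unfold st cs
  rw [← h]
  congr 1
  ext x
  exact ⟨fun h1 => hc.symm.trans h1, fun h1 => hc.trans h1⟩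

theorem conn_of_st {U V U' V' : List A} {p p' : Fin n} (h : st tr U V p = st tr U' V' p') :
    Conn (trw tr (U ++ V)) ((trw tr U).length, p) ((trw tr U').length, p') := by
  have h2 : cs tr U V p = cs tr U' V' p' := congrArg Prod.snd h
  have h3 : ((trw tr U').length, p') ∈ cs tr U' V' p' := Conn.refl _ _
  rw [← h2] at h3
  exact h3

theorem word_of_st {U V U' V' : List A} {p p' : Fin n} (h : st tr U V p = st tr U' V' p') :
    U ++ V = U' ++ V' := congrArg Prod.fst h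

/-- a split outside of a redex, and the split after rewriting -/
def Cut (x l r y U V U' V' : List A) : Prop :=
  (∃ y1, y = y1 ++ V ∧ U = x ++ l ++ y1 ∧ U' = x ++ r ++ y1 ∧ V' = V) ∨
  (∃ x1, x = U ++ x1 ∧ V = x1 ++ l ++ y ∧ V' = x1 ++ r ++ y ∧ U' = U)

theorem Cut.word {x l r y U V U' V' : List A} (h : Cut x l r y U V U' V') :
    U ++ V = x ++ l ++ y ∧ U' ++ V' = x ++ r ++ y := by
  rcases h with ⟨y1, rfl, rfl, rfl, rfl⟩ | ⟨x1, rfl, rfl, rfl, rfl⟩
  · simp
  · simp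

theorem Cut.step {x l r y U V U' V' : List A} (h : Cut x l r y U V U' V') (hR : (l, r) ∈ R) :
    (RStep R U U' ∧ V' = V) ∨ (U' = U ∧ RStep R V V') := by
  rcases h with ⟨y1, rfl, rfl, rfl, rfl⟩ | ⟨x1, rfl, rfl, rfl, rfl⟩
  · exact Or.inl ⟨⟨x, l, r, y1, hR, rfl, rfl⟩, rfl⟩
  · exact Or.inr ⟨rfl, x1, l, r, y, hR, rfl, rfl⟩

theorem cut_of_step {U V U' V' : List A} (h : (RStep R U U' ∧ V' = V) ∨ (U' = U ∧ RStep R V V')) :
    ∃ x l r y, (l, r) ∈ R ∧ Cut x l r y U V U' V' := by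
  rcases h with ⟨⟨x, l, r, y, hR, rfl, rfl⟩, rfl⟩ | ⟨rfl, x, l, r, y, hR, rfl, rfl⟩
  · exact ⟨x, l, r, y ++ V', hR, Or.inl ⟨y, rfl, rfl, rfl, rfl⟩⟩
  · exact ⟨U' ++ x, l, r, y, hR, Or.inr ⟨x, rfl, rfl, rfl, rfl⟩⟩

theorem cut_exists {x l y : List A} (r : List A) {t : ℕ}
    (ht : t ≤ x.length ∨ x.length + l.length ≤ t) :
    ∃ U' V', Cut x l r y ((x ++ l ++ y).take t) ((x ++ l ++ y).drop t) U' V' := by
  rcases ht with h | h
  · refine ⟨x.take t, x.drop t ++ r ++ y, Or.inr ⟨x.drop t, ?_, ?_, rfl, ?_⟩⟩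
    · rw [List.append_assoc, List.take_append_of_le_length h, List.take_append_drop]
    · rw [List.append_assoc, List.drop_append_of_le_length h, List.append_assoc]
    · rw [List.append_assoc, List.take_append_of_le_length h]
  · have hd : (x ++ l ++ y).drop t = y.drop (t - (x ++ l).length) := by
      rw [List.drop_append, List.drop_eq_nil_of_le (by rw [List.length_append]; exact h),
        List.nil_append]
    refine ⟨x ++ r ++ y.take (t - (x ++ l).length), y.drop (t - (x ++ l).length),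
      Or.inl ⟨y.take (t - (x ++ l).length), ?_, ?_, rfl, hd.symm⟩⟩
    · rw [hd, List.take_append_drop]
    · rw [List.take_append, List.take_of_length_le (by rw [List.length_append]; exact h)]

/-- the surgery at a cut -/
theorem surgery_cut {x l r y : List A} (hv : vl (trw tr l) = vl (trw tr r)) {χ : ℕ → Vec n}
    (hχ : Col (trw tr (x ++ l ++ y)) χ) : ∃ χ' : ℕ → Vec n, Col (trw tr (x ++ r ++ y)) χ' ∧
      ∀ U V U' V', Cut x l r y U V U' V' → χ' (trw tr U').length = χ (trw tr U).length := by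
  rw [trw_append, trw_append] at hχ
  obtain ⟨χ', h1, h2, h3⟩ := surgery hv hχ
  refine ⟨χ', by rw [trw_append, trw_append]; exact h1, ?_⟩
  rintro U V U' V' (⟨y1, rfl, rfl, rfl, rfl⟩ | ⟨x1, rfl, rfl, rfl, rfl⟩)
  · simp only [trw_append, List.length_append]
    exact h3 _
  · apply h2
    simp [trw_append]

theorem surgery_cut' {x l r y : List A} (hv : vl (trw tr l) = vl (trw tr r)) {χ' : ℕ → Vec n}
    (hχ : Col (trw tr (x ++ r ++ y)) χ') : ∃ χ : ℕ → Vec n, Col (trw tr (x ++ l ++ y)) χ ∧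
      ∀ U V U' V', Cut x l r y U V U' V' → χ' (trw tr U').length = χ (trw tr U).length := by
  rw [trw_append, trw_append] at hχ
  obtain ⟨χ, h1, h2, h3⟩ := surgery hv.symm hχ
  refine ⟨χ, by rw [trw_append, trw_append]; exact h1, ?_⟩
  rintro U V U' V' (⟨y1, rfl, rfl, rfl, rfl⟩ | ⟨x1, rfl, rfl, rfl, rfl⟩)
  · simp only [trw_append, List.length_append]
    exact (h3 _).symm
  · symm
    apply h2
    simp [trw_append]

theorem conn_cut {x l r y U1 V1 U1' V1' U2 V2 U2' V2' : List A} {p1 p2 : Fin n}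
    (hv : vl (trw tr l) = vl (trw tr r))
    (h1 : Cut x l r y U1 V1 U1' V1') (h2 : Cut x l r y U2 V2 U2' V2') :
    Conn (trw tr (x ++ l ++ y)) ((trw tr U1).length, p1) ((trw tr U2).length, p2) ↔
      Conn (trw tr (x ++ r ++ y)) ((trw tr U1').length, p1) ((trw tr U2').length, p2) := by
  constructor
  · intro h χ' hχ'
    obtain ⟨χ, h3, h4⟩ := surgery_cut' hv hχ'
    have := h χ h3
    simp only at this ⊢
    rw [h4 _ _ _ _ h1, h4 _ _ _ _ h2]
    exact this
  · intro h χ hχ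
    obtain ⟨χ', h3, h4⟩ := surgery_cut hv hχ
    have := h χ' h3
    simp only at this ⊢
    rw [h4 _ _ _ _ h1, h4 _ _ _ _ h2] at this
    exact this

theorem st_cut {x l r y U1 V1 U1' V1' U2 V2 U2' V2' : List A} {p1 p2 : Fin n}
    (hv : vl (trw tr l) = vl (trw tr r))
    (h1 : Cut x l r y U1 V1 U1' V1') (h2 : Cut x l r y U2 V2 U2' V2') :
    st tr U1 V1 p1 = st tr U2 V2 p2 ↔ st tr U1' V1' p1 = st tr U2' V2' p2 := by
  have w1 := h1.word
  have w2 := h2.word
  constructor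
  · intro h
    have h3 := conn_of_st h
    rw [w1.1, conn_cut hv h1 h2] at h3
    exact st_eq (by rw [w1.2, w2.2]) (by rw [w1.2]; exact h3)
  · intro h
    have h3 := conn_of_st h
    rw [w1.2, ← conn_cut hv h1 h2] at h3
    exact st_eq (by rw [w1.1, w2.1]) (by rw [w1.1]; exact h3)

/-! ### positions of letters -/

/-- the row at the boundary `t` -/
def ft (tr : A → List (Lt n)) (w : List A) (t : ℕ) : ℕ := (trw tr (w.take t)).length

theorem ft_zero (w : List A) : ft tr w 0 = 0 := by simp [ft, trw]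

theorem ft_end {w : List A} {t : ℕ} (h : w.length ≤ t) : ft tr w t = (trw tr w).length := by
  rw [ft, List.take_of_length_le h]

theorem ft_succ {M : ℕ} (hM : ∀ a, (tr a).length ≤ M) (w : List A) (t : ℕ) :
    ft tr w t ≤ ft tr w (t + 1) ∧ ft tr w (t + 1) ≤ ft tr w t + M := by
  unfold ft
  rw [List.take_add_one, trw_append, List.length_append]
  cases h : w[t]? with
  | none => simp [trw]
  | some a =>
    have := hM a
    simp [trw, this]

theorem ft_add {M : ℕ} (hM : ∀ a, (tr a).length ≤ M) (w : List A) (t c : ℕ) :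
    ft tr w t ≤ ft tr w (t + c) ∧ ft tr w (t + c) ≤ ft tr w t + M * c := by
  induction c with
  | zero => simp
  | succ c ih =>
    have h := ft_succ hM w (t + c)
    rw [← add_assoc, Nat.mul_succ]
    omega

theorem bd {M : ℕ} (hM : ∀ a, (tr a).length ≤ M) (w : List A) {i j s : ℕ} (hij : i < j)
    (hj : j ≤ (trw tr w).length) (hs : M * (s + 1) < j - i) :
    ∃ t0, ∀ t, t0 ≤ t → t ≤ t0 + s → t ≤ w.length ∧ i ≤ ft tr w t ∧ ft tr w t ≤ j := by
  classical
  have hex : ∃ t, i ≤ ft tr w t := ⟨w.length, by rw [ft_end le_rfl]; omega⟩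
  have h1 := Nat.find_spec hex
  set t0 := Nat.find hex with ht0
  have h2 : ft tr w t0 ≤ i + M := by
    rcases Nat.eq_zero_or_pos t0 with h | h
    · rw [h, ft_zero]; omega
    · have h3 : ¬ i ≤ ft tr w (t0 - 1) := Nat.find_min hex (by omega)
      have h4 := (ft_succ hM w (t0 - 1)).2
      rw [show t0 - 1 + 1 = t0 by omega] at h4
      omega
  refine ⟨t0, fun t ht1 ht2 => ?_⟩
  obtain ⟨c, rfl⟩ := Nat.exists_eq_add_of_le ht1
  have h3 := ft_add hM w t0 c
  have h4 : M * c ≤ M * s := Nat.mul_le_mul_left _ (by omega)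
  rw [Nat.mul_succ] at hs
  have h5 : ft tr w (t0 + c) < j := by omega
  refine ⟨?_, by omega, h5.le⟩
  by_contra h6
  rw [ft_end (by omega)] at h5
  omega

theorem choose_t (t0 i1 k1 i2 k2 L : ℕ) (h1 : k1 ≤ L) (h2 : k2 ≤ L) :
    ∃ t, t0 ≤ t ∧ t ≤ t0 + (L + L) ∧ (t ≤ i1 ∨ i1 + k1 ≤ t) ∧ (t ≤ i2 ∨ i2 + k2 ≤ t) := by
  by_cases ha : t0 ≤ i1 ∨ i1 + k1 ≤ t0
  · by_cases hb : t0 ≤ i2 ∨ i2 + k2 ≤ t0
    · exact ⟨t0, le_rfl, by omega, ha, hb⟩
    · by_cases hc : i2 + k2 ≤ i1 ∨ i1 + k1 ≤ i2 + k2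
      · exact ⟨i2 + k2, by omega, by omega, hc, Or.inr le_rfl⟩
      · exact ⟨i1 + k1, by omega, by omega, Or.inr le_rfl, by omega⟩
  · by_cases hb : i1 + k1 ≤ i2 ∨ i2 + k2 ≤ i1 + k1
    · exact ⟨i1 + k1, by omega, by omega, Or.inr le_rfl, hb⟩
    · exact ⟨i2 + k2, by omega, by omega, by omega, Or.inr le_rfl⟩

/-! ### the main argument -/

section main

variable (hR : ∀ l r, (l, r) ∈ R → mkw (trw tr l) = mkw (trw tr r))
  {M L k : ℕ} (hM : ∀ a, (tr a).length ≤ M) (hL : ∀ l r, (l, r) ∈ R → l.length ≤ L)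
  (hk : M * (L + L + 1) + 3 ≤ k)
  (conf : ∀ a b c, ReflTransGen (RStep R) a b → ReflTransGen (RStep R) a c →
    ∃ d, ReflTransGen (RStep R) b d ∧ ReflTransGen (RStep R) c d)
  (wf : WellFounded (fun b a => RStep R a b))

include hR in
theorem vl_rule {l r : List A} (h : (l, r) ∈ R) : vl (trw tr l) = vl (trw tr r) := by
  rw [vl_eq, vl_eq, hR l r h]

include hR in
theorem mkw_step {U U' : List A} (h : RStep R U U') : mkw (trw tr U) = mkw (trw tr U') := by
  obtain ⟨x, l, r, y, h1, rfl, rfl⟩ := h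
  simp only [trw_append, mkw_append, hR l r h1]

theorem lgA_left {U U' V : List A} {p : Fin n} {k : ℕ} (hk : 3 ≤ k)
    (h : mkw (trw tr U) = mkw (trw tr U')) : LgA tr k U V p ↔ LgA tr k U' V p := by
  unfold LgA
  have h1 : flen (trw tr (U ++ V)) = flen (trw tr (U' ++ V)) :=
    flen_congr (by simp only [trw_append, mkw_append, h])
  rw [← h1]
  by_cases h2 : flen (trw tr (U ++ V)) = k
  · have h3 := lgW_left (v := trw tr V) h (by rw [← trw_append, h2]; exact hk) p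
    rw [← trw_append, ← trw_append] at h3
    simp only [h2, true_and]
    exact h3
  · simp [h2]

theorem lgA_right {U V V' : List A} {p : Fin n} {k : ℕ} (hk : 3 ≤ k)
    (h : mkw (trw tr V) = mkw (trw tr V')) : LgA tr k U V p ↔ LgA tr k U V' p := by
  unfold LgA
  have h1 : flen (trw tr (U ++ V)) = flen (trw tr (U ++ V')) :=
    flen_congr (by simp only [trw_append, mkw_append, h])
  rw [← h1]
  by_cases h2 : flen (trw tr (U ++ V)) = k
  · have h3 := lgW_right (u := trw tr U) h (by rw [← trw_append, h2]; exact hk) p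
    rw [← trw_append, ← trw_append] at h3
    simp only [h2, true_and]
    exact h3
  · simp [h2]

theorem lgA_st {U V U' V' : List A} {p p' : Fin n} {k : ℕ} (h : st tr U V p = st tr U' V' p')
    (hl : LgA tr k U V p) : LgA tr k U' V' p' := by
  have h1 := word_of_st h
  have h2 := conn_of_st h
  obtain ⟨h3, h4⟩ := hl
  refine ⟨by rw [← h1]; exact h3, ?_⟩
  rw [← h1]
  exact LgW.of_conn h2.symm h4

include hM hk in
/-- a long component meets a boundary outside of two given redexes -/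
theorem find_cut {U V : List A} {p : Fin n} (h : LgA tr k U V p) {i1 k1 i2 k2 : ℕ} (h1 : k1 ≤ L)
    (h2 : k2 ≤ L) : ∃ t p', t ≤ (U ++ V).length ∧ (t ≤ i1 ∨ i1 + k1 ≤ t) ∧ (t ≤ i2 ∨ i2 + k2 ≤ t) ∧
      st tr U V p = st tr ((U ++ V).take t) ((U ++ V).drop t) p' := by
  obtain ⟨h3, h4⟩ := h
  obtain ⟨i, j, hij, hj, hlen, hT⟩ := h4.rows (by omega)
  obtain ⟨t0, ht0⟩ := bd hM (U ++ V) (s := L + L) hij hj (by omega)
  obtain ⟨t, ha, hb, hc, hd⟩ := choose_t t0 i1 k1 i2 k2 L h1 h2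
  obtain ⟨he, hf, hg⟩ := ht0 t ha hb
  obtain ⟨p', hp'⟩ := hT _ hf hg
  exact ⟨t, p', he, hc, hd, st_eq (List.take_append_drop t _).symm hp'⟩

include hR in
theorem ERel.lgA {c d : List A × Set (ℕ × Fin n)} (hk : 3 ≤ k) (h : ERel tr R k c d) {U V : List A}
    {p : Fin n} (hd : d = st tr U V p) : LgA tr k U V p := by
  obtain ⟨U1, V1, U2, V2, q, h1, h2, rfl, rfl⟩ := h
  apply lgA_st hd
  rcases h2 with ⟨h2, rfl⟩ | ⟨rfl, h2⟩
  · exact (lgA_left hk (mkw_step hR h2)).1 h1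
  · exact (lgA_right hk (mkw_step hR h2)).1 h1

include hR in
theorem lift_left {V : List A} {p : Fin n} (hk : 3 ≤ k) {U U' : List A}
    (h : ReflTransGen (RStep R) U U') (hl : LgA tr k U V p) :
    ReflTransGen (ERel tr R k) (st tr U V p) (st tr U' V p) ∧ LgA tr k U' V p := by
  induction h with
  | refl => exact ⟨ReflTransGen.refl, hl⟩
  | tail _ h ih =>
    refine ⟨ih.1.tail ⟨_, _, _, _, _, ih.2, Or.inl ⟨h, rfl⟩, rfl, rfl⟩, ?_⟩
    exact (lgA_left hk (mkw_step hR h)).1 ih.2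

include hR in
theorem lift_right {U : List A} {p : Fin n} (hk : 3 ≤ k) {V V' : List A}
    (h : ReflTransGen (RStep R) V V') (hl : LgA tr k U V p) :
    ReflTransGen (ERel tr R k) (st tr U V p) (st tr U V' p) ∧ LgA tr k U V' p := by
  induction h with
  | refl => exact ⟨ReflTransGen.refl, hl⟩
  | tail _ h ih =>
    refine ⟨ih.1.tail ⟨_, _, _, _, _, ih.2, Or.inr ⟨rfl, h⟩, rfl, rfl⟩, ?_⟩
    exact (lgA_right hk (mkw_step hR h)).1 ih.2

include hR conf in
/-- peaks at one split -/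
theorem local_join (hk : 3 ≤ k) {U V U1 V1 U2 V2 : List A} {p : Fin n} (hl : LgA tr k U V p)
    (h1 : (RStep R U U1 ∧ V1 = V) ∨ (U1 = U ∧ RStep R V V1))
    (h2 : (RStep R U U2 ∧ V2 = V) ∨ (U2 = U ∧ RStep R V V2)) :
    ∃ e, ReflTransGen (ERel tr R k) (st tr U1 V1 p) e ∧
      ReflTransGen (ERel tr R k) (st tr U2 V2 p) e := by
  rcases h1 with ⟨h1, rfl⟩ | ⟨rfl, h1⟩ <;> rcases h2 with ⟨h2, rfl⟩ | ⟨rfl, h2⟩
  · obtain ⟨Z, hz1, hz2⟩ := conf _ _ _ (ReflTransGen.single h1) (ReflTransGen.single h2)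
    exact ⟨st tr Z V2 p, (lift_left hR hk hz1 ((lgA_left hk (mkw_step hR h1)).1 hl)).1,
      (lift_left hR hk hz2 ((lgA_left hk (mkw_step hR h2)).1 hl)).1⟩
  · refine ⟨st tr U1 V2 p, ReflTransGen.single ⟨_, _, _, _, _,
      (lgA_left hk (mkw_step hR h1)).1 hl, Or.inr ⟨rfl, h2⟩, rfl, rfl⟩, ReflTransGen.single
      ⟨_, _, _, _, _, (lgA_right hk (mkw_step hR h2)).1 hl, Or.inl ⟨h1, rfl⟩, rfl, rfl⟩⟩
  · refine ⟨st tr U2 V1 p, ReflTransGen.single ⟨_, _, _, _, _,
      (lgA_right hk (mkw_step hR h1)).1 hl, Or.inl ⟨h2, rfl⟩, rfl, rfl⟩, ReflTransGen.single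
      ⟨_, _, _, _, _, (lgA_left hk (mkw_step hR h2)).1 hl, Or.inr ⟨rfl, h1⟩, rfl, rfl⟩⟩
  · obtain ⟨Z, hz1, hz2⟩ := conf _ _ _ (ReflTransGen.single h1) (ReflTransGen.single h2)
    exact ⟨st tr U2 Z p, (lift_right hR hk hz1 ((lgA_right hk (mkw_step hR h1)).1 hl)).1,
      (lift_right hR hk hz2 ((lgA_right hk (mkw_step hR h2)).1 hl)).1⟩

include hR hM hL hk conf in
theorem local_conf (c d1 d2 : List A × Set (ℕ × Fin n)) (h1 : ERel tr R k c d1)
    (h2 : ERel tr R k c d2) :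
    ∃ e, ReflTransGen (ERel tr R k) d1 e ∧ ReflTransGen (ERel tr R k) d2 e := by
  have hk3 : 3 ≤ k := by omega
  obtain ⟨U1, V1, U1', V1', p1, l1, s1, rfl, rfl⟩ := h1
  obtain ⟨U2, V2, U2', V2', p2, l2, s2, e2, rfl⟩ := h2
  obtain ⟨x1, l1', r1, y1, hR1, c1⟩ := cut_of_step s1
  obtain ⟨x2, l2', r2, y2, hR2, c2⟩ := cut_of_step s2
  obtain ⟨t, p, ht, hc, hd, he⟩ := find_cut (i1 := x1.length) (k1 := l1'.length)
    (i2 := x2.length) (k2 := l2'.length) hM hk l1 (hL _ _ hR1) (hL _ _ hR2)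
  have w1 := c1.word
  have w2 := c2.word
  have w12 := word_of_st e2
  obtain ⟨T1, D1, hc1⟩ := cut_exists (y := y1) r1 hc
  obtain ⟨T2, D2, hc2⟩ := cut_exists (y := y2) r2 hd
  rw [← w1.1] at hc1
  rw [← w2.1, ← w12] at hc2
  have f1 : st tr U1' V1' p1 = st tr T1 D1 p := (st_cut (vl_rule hR hR1) c1 hc1).1 he
  have f2 : st tr U2' V2' p2 = st tr T2 D2 p := (st_cut (vl_rule hR hR2) c2 hc2).1 (e2.symm.trans he)
  rw [f1, f2]
  exact local_join hR conf hk3 (lgA_st he l1) (hc1.step hR1) (hc2.step hR2)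

theorem ERel.word {c d : List A × Set (ℕ × Fin n)} (h : ERel tr R k c d) : RStep R c.1 d.1 := by
  obtain ⟨U, V, U', V', p, _, h2, rfl, rfl⟩ := h
  rcases h2 with ⟨⟨x, l, r, y, h3, rfl, rfl⟩, rfl⟩ | ⟨rfl, ⟨x, l, r, y, h3, rfl, rfl⟩⟩
  · exact ⟨x, l, r, y ++ V', h3, by simp [st], by simp [st]⟩
  · exact ⟨U' ++ x, l, r, y, h3, by simp [st], by simp [st]⟩

include hR hM hL hk conf wf in
theorem inj_main (w : List A) : ∀ (U1 V1 : List A) (p1 : Fin n) (U2 V2 : List A) (p2 : Fin n),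
    U1 ++ V1 = w → U2 ++ V2 = w → LgA tr k U1 V1 p1 → LgA tr k U2 V2 p2 →
    EqvGen (ERel tr R k) (st tr U1 V1 p1) (st tr U2 V2 p2) → st tr U1 V1 p1 = st tr U2 V2 p2 := by
  have hk3 : 3 ≤ k := by omega
  have wfE : WellFounded (fun d c => ERel tr R k c d) := by
    apply Subrelation.wf _ (InvImage.wf Prod.fst wf)
    intro d c h
    exact h.word
  have cf := newman wfE (fun a b c h1 h2 => local_conf hR hM hL hk conf a b c h1 h2)
  induction w using wf.induction with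
  | _ w ih =>
    intro U1 V1 p1 U2 V2 p2 hw1 hw2 l1 l2 hE
    by_cases hred : ∃ w', RStep R w w'
    · obtain ⟨w', x, l, r, y, hr, hw, hw'⟩ := hred
      obtain ⟨t1, q1, ht1, ha1, _, he1⟩ := find_cut (i1 := x.length) (k1 := l.length)
        (i2 := x.length) (k2 := l.length) hM hk l1 (hL _ _ hr) (hL _ _ hr)
      obtain ⟨t2, q2, ht2, ha2, _, he2⟩ := find_cut (i1 := x.length) (k1 := l.length)
        (i2 := x.length) (k2 := l.length) hM hk l2 (hL _ _ hr) (hL _ _ hr)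
      obtain ⟨T1, D1, c1⟩ := cut_exists (y := y) r ha1
      obtain ⟨T2, D2, c2⟩ := cut_exists (y := y) r ha2
      rw [← hw, ← hw1] at c1
      rw [← hw, ← hw2] at c2
      have hs1 : ERel tr R k (st tr U1 V1 p1) (st tr T1 D1 q1) :=
        ⟨_, _, _, _, _, lgA_st he1 l1, c1.step hr, he1, rfl⟩
      have hs2 : ERel tr R k (st tr U2 V2 p2) (st tr T2 D2 q2) :=
        ⟨_, _, _, _, _, lgA_st he2 l2, c2.step hr, he2, rfl⟩
      have h3 := ih w' ⟨x, l, r, y, hr, hw, hw'⟩ T1 D1 q1 T2 D2 q2 (by rw [c1.word.2, hw'])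
        (by rw [c2.word.2, hw']) (hs1.lgA hR hk3 rfl) (hs2.lgA hR hk3 rfl)
        (EqvGen.trans _ _ _ (EqvGen.symm _ _ (EqvGen.rel _ _ hs1))
          (EqvGen.trans _ _ _ hE (EqvGen.rel _ _ hs2)))
      rw [he1, he2]
      exact (st_cut (vl_rule hR hr) c1 c2).2 h3
    · obtain ⟨e, h1, h2⟩ := church cf hE
      have irr : ∀ (U V : List A) (p : Fin n), U ++ V = w →
          ReflTransGen (ERel tr R k) (st tr U V p) e → st tr U V p = e := by
        intro U V p hUV h
        rcases ReflTransGen.cases_head h with h | ⟨d, h, _⟩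
        · exact h
        · exfalso
          apply hred
          refine ⟨d.1, ?_⟩
          rw [← hUV]
          exact h.word
      rw [irr U1 V1 p1 hw1 h1, irr U2 V2 p2 hw2 h2]

include hR in
theorem eqv_left {V : List A} {p : Fin n} (hk : 3 ≤ k) {U U' : List A}
    (h : EqvGen (RStep R) U U') : mkw (trw tr U) = mkw (trw tr U') ∧
      (LgA tr k U V p → EqvGen (ERel tr R k) (st tr U V p) (st tr U' V p)) := by
  induction h with
  | rel x y h =>
    exact ⟨mkw_step hR h, fun hl => EqvGen.rel _ _ ⟨_, _, _, _, _, hl, Or.inl ⟨h, rfl⟩, rfl, rfl⟩⟩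
  | refl x => exact ⟨rfl, fun _ => EqvGen.refl _⟩
  | symm x y _ ih =>
    exact ⟨ih.1.symm, fun hl => EqvGen.symm _ _ (ih.2 ((lgA_left hk ih.1).2 hl))⟩
  | trans x y z _ _ ih1 ih2 =>
    exact ⟨ih1.1.trans ih2.1, fun hl => EqvGen.trans _ _ _ (ih1.2 hl) (ih2.2 ((lgA_left hk ih1.1).1 hl))⟩

include hR in
theorem eqv_right {U : List A} {p : Fin n} (hk : 3 ≤ k) {V V' : List A}
    (h : EqvGen (RStep R) V V') : mkw (trw tr V) = mkw (trw tr V') ∧
      (LgA tr k U V p → EqvGen (ERel tr R k) (st tr U V p) (st tr U V' p)) := by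
  induction h with
  | rel x y h =>
    exact ⟨mkw_step hR h, fun hl => EqvGen.rel _ _ ⟨_, _, _, _, _, hl, Or.inr ⟨rfl, h⟩, rfl, rfl⟩⟩
  | refl x => exact ⟨rfl, fun _ => EqvGen.refl _⟩
  | symm x y _ ih =>
    exact ⟨ih.1.symm, fun hl => EqvGen.symm _ _ (ih.2 ((lgA_right hk ih.1).2 hl))⟩
  | trans x y z _ _ ih1 ih2 =>
    exact ⟨ih1.1.trans ih2.1, fun hl => EqvGen.trans _ _ _ (ih1.2 hl) (ih2.2 ((lgA_right hk ih1.1).1 hl))⟩

include hR hM hL hk conf wf in
/-- The conclusion: a swap is impossible. -/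
theorem no_swap {U V B : List A} {p q : Fin n}
    (h1 : EqvGen (RStep R) (U ++ B) U) (h2 : EqvGen (RStep R) (B ++ V) V)
    (hb : ∀ f g : Vec n, (f, g) ∈ (vl (trw tr B)).C → f q = g p)
    (lp : LgA tr k U V p) (lq : LgA tr k U V q) :
    Conn (trw tr (U ++ V)) ((trw tr U).length, p) ((trw tr U).length, q) := by
  have hk3 : 3 ≤ k := by omega
  apply conn_of_st (V' := V)
  apply inj_main hR hM hL hk conf wf (U ++ V) U V p U V q rfl rfl lp lq
  have e1 := (eqv_left (V := V) (p := p) hR hk3 (EqvGen.symm _ _ h1)).2 lp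
  have e2 : st tr (U ++ B) V p = st tr U (B ++ V) q := by
    apply st_eq (by simp)
    intro χ hχ
    rw [trw_append, trw_append, col_append, col_append] at hχ
    have := hb _ _ (col_vl hχ.1.2)
    simp only [add_zero] at this
    simp only [trw_append, List.length_append]
    exact this.symm
  have l2 : LgA tr k U (B ++ V) q :=
    (lgA_right hk3 (eqv_right (U := U) (p := q) (k := k) hR hk3 h2).1).2 lq
  have e3 := (eqv_right (U := U) (p := q) hR hk3 h2).2 l2
  rw [e2] at e1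
  exact EqvGen.trans _ _ _ e1 e3

end main

end Pool.Agent.K9h89.IGN
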